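import Mathlib
import Pool.Agent.N178.HW.Defs
import Pool.Agent.N178.HW.StmB
import Pool.Agent.N178.HW.PL

/-!
# Highest weights in tensor spaces with an arbitrary centre: statements

As in `Pool.Agent.N178.HW.Defs`, but the traces of the Lie algebra on the classes are in the complex
span of arbitrary many integral vectors `e s : P → ℤ`, `s : S`.
-/

set_option linter.unusedSectionVars false

namespace Pool.Agent.N178.HX

open Finset Matrix Pool.Agent.W437.HC Pool.Agent.V1168.GH Pool.Agent.W548.Odd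
open Pool.Agent.TH131.GHC (cx HL)
open Pool.Agent.N178.HW

noncomputable section

/-- The complex span of the vectors `e s`. -/
def Tsp {S P : Type} (e : S → P → ℤ) : Submodule ℂ (P → ℂ) :=
  Submodule.span ℂ (Set.range fun s => fun p => (e s p : ℂ))

/-- `d` is an odd function with values `1`, `-1` whose sums over the classes are given by `t`. -/
structure IsSg {R P : Type} [Fintype R] [DecidableEq P] (cls : R → P) (inv : R → R) (t : P → ℤ)
    (d : R → ℤ) : Prop where
  one : ∀ x, d x = 1 ∨ d x = -1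
  odd : ∀ x, d (inv x) = -d x
  sum : ∀ p, ∑ x ∈ univ.filter (fun x => cls x = p), d x = t p

/-- The sums property: each integral combination of the functions `s ↦ e s p` with values of absolute
value at most `N` is a sum of at most `N` functions `s ↦ e s p` with classes `p` of one element. -/
def SumE {S R P : Type} [Fintype R] [Fintype P] [DecidableEq P] (cls : R → P) (e : S → P → ℤ) :
    Prop :=
  ∀ (m : P → ℤ) (N : ℕ), (∀ s, |∑ p, m p * e s p| ≤ N) →
    ∃ a : P → ℕ, (∀ p, a p ≠ 0 → (univ.filter fun x => cls x = p).card = 1) ∧ ∑ p, a p ≤ N ∧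
      ∀ s, ∑ p, (a p : ℤ) * e s p = ∑ p, m p * e s p

/-- The shift of the weight by a vector orthogonal to the traces, to minimise the degree. -/
def S_SHIFTG : Prop := ∀ {S R P : Type} [Nonempty S] [Fintype R] [DecidableEq R] [Fintype P]
  [DecidableEq P] {cls : R → P} {b : P → P} {inv : R → R} {jj : R → ℂ} {X : R → Prop} {h : R → ℤ},
  Fr cls b inv jj X → Hgt cls inv X h → (∀ p, b (b p) = p) →
  ∀ e : S → P → ℤ, (∀ s p, e s (b p) = -e s p) → (∀ s p, e s p = -1 ∨ e s p = 0 ∨ e s p = 1) →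
  (∀ s p, Even (e s p + (univ.filter fun x => cls x = p).card)) → SumE cls e →
  ∀ c : R → ℤ, (∀ x, c (inv x) = -c x) → (∀ x y, cls x = cls y → h x < h y → c x ≤ c y) →
  ∀ n : ℕ, (∀ s d, IsSg cls inv (e s) d → |∑ x, c x * d x| ≤ 2 * n) →
  ∃ a : P → ℤ, (∀ p, a (b p) = -a p) ∧ (∀ s, ∑ p, a p * e s p = 0) ∧
    ∑ x, (c x + a (cls x)).toNat ≤ n

/-- Stable spaces are stable under the exponentials of the elements with square zero. -/
def S_EXPO : Prop := ∀ {κ R P : Type} [Fintype κ] [DecidableEq κ] [Fintype R] [DecidableEq R]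
  [DecidableEq P] {cls : R → P} {inv : R → R} {jj : R → ℂ} (T : Submodule ℂ (P → ℂ))
  (U : Submodule ℂ ((κ → R) → ℂ)), StG cls inv jj T U → ∀ N ∈ GR cls inv jj T, N * N = 0 →
  ∀ u ∈ U, pl (fun _ => 1 + N) u ∈ U

/-- The symplectic form: `⟨e_x, e_y⟩ = jj x` if `y = inv x` and zero otherwise. -/
def sf {R : Type} [Fintype R] (inv : R → R) (jj : R → ℂ) (v w : R → ℂ) : ℂ :=
  ∑ x, jj x * v x * w (inv x)

/-- Transitivity (up to scalars) on the pairs of vectors with a given product, with all basis vectors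
fixed whose index is in the set `A`. The matrix of the product of the list is applied to the vectors. -/
def S_PAIR : Prop := ∀ {R P : Type} [Fintype R] [DecidableEq R] [DecidableEq P] {cls : R → P}
  {b : P → P} {inv : R → R} {jj : R → ℂ} {X : R → Prop}, Fr cls b inv jj X → (∀ p, b (b p) = p) →
  ∀ (T : Submodule ℂ (P → ℂ)) (A : R → Prop), (∀ x, A x → A (inv x)) → ∀ x₀, ¬ A x₀ →
  ∀ v w : R → ℂ, (∀ x, v x ≠ 0 → cls x = cls x₀ ∧ ¬ A x) →
  (∀ x, w x ≠ 0 → cls x = b (cls x₀) ∧ ¬ A x) → sf inv jj v w = jj x₀ →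
  ∃ (c : ℂ) (l : List (Matrix R R ℂ)), c ≠ 0 ∧ (∀ N ∈ l, N ∈ GR cls inv jj T ∧ N * N = 0 ∧
      ∀ x, A x → N *ᵥ Pi.single x 1 = 0) ∧
    (l.map fun N => 1 + N).prod *ᵥ Pi.single x₀ 1 = c • v ∧
    (l.map fun N => 1 + N).prod *ᵥ Pi.single (inv x₀) 1 = c⁻¹ • w

/-- Two elements of `GR` with square one and with the same traces on the classes, the second one a
diagonal matrix, are conjugate under a product of matrices `1 + N`, `N` in `GR` of square zero. -/
def S_GEN : Prop := ∀ {R P : Type} [Fintype R] [DecidableEq R] [DecidableEq P] {cls : R → P}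
  {b : P → P} {inv : R → R} {jj : R → ℂ} {X : R → Prop}, Fr cls b inv jj X → (∀ p, b (b p) = p) →
  ∀ (T : Submodule ℂ (P → ℂ)), ∀ Y ∈ GR cls inv jj T, Y * Y = 1 → ∀ t : P → ℤ,
  (∀ p, ∑ x ∈ univ.filter (fun x => cls x = p), Y x x = (t p : ℂ)) → ∀ d, IsSg cls inv t d →
  ∃ l : List (Matrix R R ℂ), (∀ N ∈ l, N ∈ GR cls inv jj T ∧ N * N = 0) ∧
    Y * (l.map fun N => 1 + N).prod = (l.map fun N => 1 + N).prod * diagonal (fun x => (d x : ℂ))

section lev

variable {B : Type} [Fintype B] [DecidableEq B]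

/-- The level is at most `n` for all conjugates of `D`. -/
def LvG (D : Matrix B B ℂ) (n : ℕ) {κ : Type} [Fintype κ] [DecidableEq κ]
    (U : Submodule ℂ ((κ → B) → ℂ)) : Prop :=
  ∀ σ : ℂ ≃+* ℂ, LvC (D.map σ) n U

/-- As `HasMaps`, for the spaces whose level for all conjugates of `D` is at most `n`. -/
def HasMapsG (D : Matrix B B ℂ) (n i : ℕ) : Prop :=
  ∀ U : Submodule ℂ ((Fin i → B) → ℂ), U ≠ ⊥ → Stb (LA {D}) U → LvG D n U →
    ∃ (κ' : Type) (_ : Fintype κ') (_ : DecidableEq κ'), Fintype.card κ' ≤ n ∧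
      Even (n - Fintype.card κ') ∧ ∃ φ : ((Fin i → B) → ℂ) →ₗ[ℂ] ((κ' → B) → ℂ),
        (∀ X ∈ LA {D}, ∀ u, φ (act X u) = act X (φ u)) ∧ ∃ u ∈ U, φ u ≠ 0

end lev

/-- Rational Hodge substructures of level at most `n` are spanned by contractions of Hodge tensors. -/
def S_RATG : Prop := ∀ {B : Type} [Fintype B] [DecidableEq B] [Nonempty B]
  {D Om S Si : Matrix B B ℂ}, Herm {D} Om S Si → ∀ n i : ℕ, HasMapsG D n i →
  ∀ V : Submodule ℚ ((Fin i → B) → ℚ), HL D (n : ℤ) V → V ≤ RS D n i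

end

end Pool.Agent.N178.HX
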