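import Mathlib
import Pool.Agent.N178.HW.StmC
import Pool.Agent.N178.HX.StmD
import Pool.Agent.N830.HC.Frame

/-!
# Abelian varieties whose complex multiplication part is in given CM fields: statements

`cjS σ U` is the image of the subspace `U` under the automorphism `σ` of `ℂ` (in each coordinate);
`tr Z U` is the trace of the Hodge operator `DZ Z` on the stable subspace `U`, an integer.
-/

set_option linter.unusedSectionVars false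

namespace Pool.Agent.N178.HX

open Finset Matrix Module NumberField Pool.Agent.W437.HC Pool.Agent.W437.HD Pool.Agent.Y90
open Pool.Agent.R915 Pool.Agent.N178.HW
open Pool.Agent.H204R3.CM (IsHodge IsCMType)
open Pool.Agent.W546.GHC (IsHodgeSubstructure LevelLE)
open Pool.Agent.W547.KB (CMPair CMAV single)
open Pool.Agent.N830.HC (HasCMultIn AllowedIn Allowed Frame av)

noncomputable section

/-- The abelian varieties of the theorem, for a family `L` of fields. (An abelian fourfold `Y` with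
`Unbalanced Y d` would have the signature `(3, 1)`.) -/
def Cls {K : Type} (L : K → Type) [∀ k, Field (L k)] (X : AV) : Prop :=
  ∀ Y, IsFactor Y X → (∃ k, HasCMultIn Y (L k)) ∨ (¬ HasCMult Y ∧ (finrank ℚ Y.H ≤ 6 ∨ QuadMult Y ∨
    RealMult Y ∨ FiveDim Y ∨ FullHodge Y) ∧ ∀ d : ℚ, Unbalanced Y d →
      finrank ℚ Y.H ≠ 8 ∧ ∃ k, ∃ s : L k, s * s = -(d : L k))

/-- The fields are independent (linearly disjoint, if they are Galois over `ℚ`). -/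
def Ind {K : Type} (L : K → Type) [∀ k, Field (L k)] : Prop :=
  ∀ φ ψ : ∀ k, L k →+* ℂ, ∃ σ : ℂ ≃+* ℂ, ∀ k, (σ : ℂ →+* ℂ).comp (φ k) = ψ k

/-- The span of the classes of degree `i` on `X` given by a class `τ` of degree `n + i` in the system
`𝒜` on a product `P = Y × X` and elements of `H_n(Y, ℚ)`. -/
def Cor (𝒜 : Sys) (X : AV) (n i : ℕ) : Submodule ℚ (X.H [⋀^Fin i]→ₗ[ℚ] ℚ) :=
  Submodule.span ℚ {f | ∃ (Y P : AV) (a : Y.H →ₗ[ℚ] P.H) (b : X.H →ₗ[ℚ] P.H)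
    (τ : P.H [⋀^Fin n ⊕ Fin i]→ₗ[ℚ] ℚ) (y : Fin n → Y.H), IsHom Y P a ∧ IsHom X P b ∧
    Function.Bijective (fun w : Y.H × X.H => a w.1 + b w.2) ∧ 𝒜.A P (Fin n ⊕ Fin i) τ ∧
    ∀ x : Fin i → X.H, f x = τ (Sum.elim (fun k => a (y k)) fun l => b (x l))}

/-- The generalized Hodge conjecture for `X`, with classes in the system `𝒜`. -/
def GHC (𝒜 : Sys) (X : AV) : Prop :=
  ∀ (n j : ℕ) (V : Submodule ℚ (X.H [⋀^Fin (n + 2 * j)]→ₗ[ℚ] ℚ)), IsHodgeSubstructure X.per V →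
    LevelLE X.per V n → V ≤ Cor 𝒜 X n (n + 2 * j)

/-- The sums property: each integral combination, with absolute values at most `N`, of the functions
`σ ↦ tr Z (cjS σ U)` of irreducible submodules is a sum of at most `N` functions of this kind, with
lines `U`. -/
def SumP {g : ℕ} (Z : Matrix (Fin g) (Fin g) ℂ) : Prop :=
  ∀ {I : Type} [Fintype I] (U : I → Submodule ℂ (Fin g ⊕ Fin g → ℂ)) (m : I → ℤ) (N : ℕ),
    (∀ i, IrS (Pool.Agent.Y90.LZ Z) (U i)) →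
    (∀ σ : ℂ ≃+* ℂ, |∑ i, m i * tr Z (cjS σ (U i))| ≤ N) →
    ∃ (I' : Type) (_ : Fintype I') (W : I' → Submodule ℂ (Fin g ⊕ Fin g → ℂ)),
      (∀ i, IrS (Pool.Agent.Y90.LZ Z) (W i) ∧ finrank ℂ (W i) = 1) ∧ Fintype.card I' ≤ N ∧
      ∀ σ : ℂ ≃+* ℂ, ∑ i, tr Z (cjS σ (W i)) = ∑ i, m i * tr Z (cjS σ (U i))

/-- The matrices which commute with the commutant, preserve the symplectic form and whose traces on
the irreducible submodules are a combination of those of the conjugates of the complex structure kill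
all invariant tensors. -/
def S_TKG : Prop := ∀ {g : ℕ} {Z : Matrix (Fin g) (Fin g) ℂ}, PM Z → LCF' Z →
  ∀ (N : Matrix (Fin g ⊕ Fin g) (Fin g ⊕ Fin g) ℂ) (s : Finset (ℂ ≃+* ℂ)) (lam : (ℂ ≃+* ℂ) → ℂ),
  (∀ c, Pool.Agent.Y4.H.Ct Z c → N * c = c * N) → Nᵀ * Om g ℂ + Om g ℂ * N = 0 →
  (∀ W, IrS (Pool.Agent.Y90.LZ Z) W → ∀ hN : ∀ u ∈ W, mulVecLin N u ∈ W,
    LinearMap.trace ℂ W ((mulVecLin N).restrict hN) = ∑ σ ∈ s, lam σ * tr Z (cjS σ W)) →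
  N ∈ Tk (Pool.Agent.Y90.LZ Z)

/-- The local conditions and the traces of the complex structure on the irreducible submodules. -/
def S_LOCG : Prop := ∀ {K : Type} (L : K → Type) [∀ k, Field (L k)] [∀ k, NumberField (L k)]
  [∀ k, IsGalois ℚ (L k)] (j : ∀ k, L k →+* ℂ) {g : ℕ} {Z : Matrix (Fin g) (Fin g) ℂ} (h : PM Z),
  Cls L (AVZ h) → LCF' Z ∧
    (∀ U, IrS (Pool.Agent.Y90.LZ Z) U → tr Z U = -1 ∨ tr Z U = 0 ∨ tr Z U = 1) ∧
    ∀ U, IrS (Pool.Agent.Y90.LZ Z) U → (∀ σ : ℂ ≃+* ℂ, tr Z (cjS σ U) = 0) ∨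
      ∃ k, ∀ σ τ : ℂ ≃+* ℂ, (∀ x, σ (j k x) = τ (j k x)) → tr Z (cjS σ U) = tr Z (cjS τ U)

/-- The line attached to an abelian variety of CM type. -/
def S_LINEA : Prop := ∀ {g : ℕ} {Z : Matrix (Fin g) (Fin g) ℂ} (h : PM Z) (P : CMPair)
  (j : P.E →+* ℂ) (f : (av (single P)).H →ₗ[ℚ] (AVZ h).H), IsHom (av (single P)) (AVZ h) f →
  Function.Injective f →
  ∃ U, IrS (Pool.Agent.Y90.LZ Z) U ∧ finrank ℂ U = 1 ∧ ∀ σ : ℂ ≃+* ℂ,
    ((σ : ℂ →+* ℂ).comp j ∈ P.Φ → tr Z (cjS σ U) = 1) ∧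
    ((σ : ℂ →+* ℂ).comp j ∉ P.Φ → tr Z (cjS σ U) = -1)

/-- The sums property. -/
def S_SUMA : Prop := ∀ {g : ℕ} {Z : Matrix (Fin g) (Fin g) ℂ}, PM Z → ∀ {K : Type} [Fintype K]
  [DecidableEq K] (L : K → Type) [∀ k, Field (L k)] [∀ k, NumberField (L k)]
  [∀ k, IsCMField (L k)] (j : ∀ k, L k →+* ℂ), Ind L →
  (∀ U, IrS (Pool.Agent.Y90.LZ Z) U → (∀ σ : ℂ ≃+* ℂ, tr Z (cjS σ U) = 0) ∨
      ∃ k, ∀ σ τ : ℂ ≃+* ℂ, (∀ x, σ (j k x) = τ (j k x)) → tr Z (cjS σ U) = tr Z (cjS τ U)) →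
  (∀ k (Φ : Set (L k →+* ℂ)), IsCMType Φ →
    ∃ U, IrS (Pool.Agent.Y90.LZ Z) U ∧ finrank ℂ U = 1 ∧ ∀ σ : ℂ ≃+* ℂ,
    ((σ : ℂ →+* ℂ).comp (j k) ∈ Φ → tr Z (cjS σ U) = 1) ∧
    ((σ : ℂ →+* ℂ).comp (j k) ∉ Φ → tr Z (cjS σ U) = -1)) → SumP Z

/-- The product of the abelian varieties of all CM types of the fields. -/
def S_CL : Prop := ∀ {K : Type} [Fintype K] (L : K → Type) [∀ k, Field (L k)]
  [∀ k, NumberField (L k)] [∀ k, IsCMField (L k)], ∃ C : AV, Cls L C ∧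
    ∀ k (P : Set (L k →+* ℂ)) (hP : IsCMType P),
      ∃ f : (av (single ⟨L k, P, hP⟩)).H →ₗ[ℚ] C.H, IsHom (av (single ⟨L k, P, hP⟩)) C f ∧
        Function.Injective f

/-- The maps. -/
def S_MAPSG : Prop := ∀ {g : ℕ} {Z : Matrix (Fin g) (Fin g) ℂ}, PM Z → LCF' Z →
  (∀ U, IrS (Pool.Agent.Y90.LZ Z) U → tr Z U = -1 ∨ tr Z U = 0 ∨ tr Z U = 1) → SumP Z →
  ∀ n j : ℕ, HasMapsG (DZ Z) n (n + 2 * j)

/-- The assembly. -/
def S_ASMG : Prop := S_MULT → S_RATG → ∀ (𝒜 : Sys) (Q : AV → Prop),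
  (∀ (X Y : AV) (f : X.H →ₗ[ℚ] Y.H), IsHom X Y f → Function.Injective f → Q Y → Q X) →
  (∀ X Y : AV, Q X → Q Y → Q (prodAV X Y)) → (∀ X : AV, Q X → 𝒜.AllHodge X) →
  ∀ C : AV, Q C →
  (∀ {g : ℕ} {Z : Matrix (Fin g) (Fin g) ℂ} (h : PM Z) (f : C.H →ₗ[ℚ] (AVZ h).H),
    IsHom C (AVZ h) f → Function.Injective f → Q (AVZ h) →
    ∀ n j : ℕ, HasMapsG (DZ Z) n (n + 2 * j)) →
  ∀ X : AV, Q X → GHC 𝒜 X

/-- The generalized Hodge conjecture contains the Hodge conjecture. -/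
def S_ZERO : Prop := ∀ (𝒜 : Sys) (X : AV), GHC 𝒜 X → 𝒜.AllHodge X

/-- A sufficiently large field. -/
def S_EXL : Prop := ∀ X : AV, Allowed X →
  (∀ Y, IsFactor Y X → ¬ HasCMult Y → finrank ℚ Y.H = 8 → ∀ d, ¬ Unbalanced Y d) →
  ∃ (L : Type) (_ : Field L) (_ : NumberField L) (_ : IsCMField L) (_ : IsGalois ℚ L),
    Cls (fun _ : Unit => L) X

/-- The Hodge conjecture for independent Galois CM fields of degree at most six. -/
def S_ALLC : Prop := ∀ {K : Type} [Fintype K] (L : K → Type) [∀ k, Field (L k)]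
  [∀ k, NumberField (L k)] [∀ k, IsCMField (L k)] [∀ k, IsGalois ℚ (L k)], Ind L →
  (∀ k, finrank ℚ (L k) ≤ 6) → ∀ (𝒜 : Sys) (X : AV), Cls L X → 𝒜.AllHodge X

/-- The main statement for independent fields. -/
def S_MAING : Prop := ∀ {K : Type} [Fintype K] (L : K → Type) [∀ k, Field (L k)]
  [∀ k, NumberField (L k)] [∀ k, IsCMField (L k)] [∀ k, IsGalois ℚ (L k)], Ind L →
  ∀ 𝒜 : Sys, (∀ X : AV, Cls L X → 𝒜.AllHodge X) → ∀ X : AV, Cls L X → GHC 𝒜 X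

end

end Pool.Agent.N178.HX
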