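import Mathlib
import Pool.Agent.N178.HW.Core
import Pool.Agent.N178.HX.StmD

/-!
# Highest weights in tensor spaces with an arbitrary centre: the main statement
-/

set_option linter.unusedSectionVars false

namespace Pool.Agent.N178.HX

open Finset Matrix Pool.Agent.W437.HC Pool.Agent.V1168.GH Pool.Agent.N178.HW

noncomputable section

section

variable {κ R P S : Type} [Fintype κ] [DecidableEq κ] [Fintype R] [DecidableEq R] [Fintype P]
  [DecidableEq P] {cls : R → P} {b : P → P} {inv : R → R} {jj : R → ℂ} {X : R → Prop}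

theorem Tsp_conj {e : S → P → ℤ} : ∀ t ∈ Tsp e, (fun p => (starRingEnd ℂ) (t p)) ∈ Tsp e := by
  intro t ht
  unfold Tsp at ht ⊢
  induction ht using Submodule.span_induction with
  | mem t ht =>
    obtain ⟨s, rfl⟩ := ht
    refine Submodule.subset_span ⟨s, ?_⟩
    funext p
    exact (map_intCast _ _).symm
  | zero =>
    have h1 : (fun p => (starRingEnd ℂ) ((0 : P → ℂ) p)) = 0 := by
      funext p
      exact map_zero _
    rw [h1]
    exact Submodule.zero_mem _
  | add x y _ _ hx hy =>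
    have h1 : (fun p => (starRingEnd ℂ) ((x + y) p)) = (fun p => (starRingEnd ℂ) (x p)) +
        fun p => (starRingEnd ℂ) (y p) := by
      funext p
      exact map_add _ _ _
    rw [h1]
    exact Submodule.add_mem _ hx hy
  | smul a x _ hx =>
    have h1 : (fun p => (starRingEnd ℂ) ((a • x) p)) =
        (starRingEnd ℂ) a • fun p => (starRingEnd ℂ) (x p) := by
      funext p
      exact map_mul _ _ _
    rw [h1]
    exact Submodule.smul_mem _ _ hx

/-- Orthogonality. -/
theorem Tsp_orth {e : S → P → ℤ} {a : P → ℤ} (ha : ∀ s, ∑ p, a p * e s p = 0) {t : P → ℂ}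
    (ht : t ∈ Tsp e) : ∑ p, (a p : ℂ) * t p = 0 := by
  unfold Tsp at ht
  induction ht using Submodule.span_induction with
  | mem t ht =>
    obtain ⟨s, rfl⟩ := ht
    have h1 := ha s
    change ∑ p, (a p : ℂ) * (e s p : ℂ) = 0
    exact_mod_cast h1
  | zero => exact sum_eq_zero fun p _ => mul_zero _
  | add x y _ _ hx hy =>
    have h1 : ∑ p, (a p : ℂ) * (x + y) p = ∑ p, (a p : ℂ) * x p + ∑ p, (a p : ℂ) * y p := by
      rw [← sum_add_distrib]
      exact sum_congr rfl fun p _ => mul_add _ _ _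
    rw [h1, hx, hy, add_zero]
  | smul c x _ hx =>
    have h1 : ∑ p, (a p : ℂ) * (c • x) p = c * ∑ p, (a p : ℂ) * x p := by
      rw [mul_sum]
      exact sum_congr rfl fun p _ => mul_left_comm _ _ _
    rw [h1, hx, mul_zero]

theorem mem_Tsp {e : S → P → ℤ} (s : S) : (fun p => (e s p : ℂ)) ∈ Tsp e :=
  Submodule.subset_span ⟨s, rfl⟩

/-- Stability under products of exponentials. -/
theorem pl_list (hEx : S_EXPO) {T : Submodule ℂ (P → ℂ)} {U : Submodule ℂ ((κ → R) → ℂ)}
    (hU : StG cls inv jj T U) (l : List (Matrix R R ℂ))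
    (hl : ∀ N ∈ l, N ∈ GR cls inv jj T ∧ N * N = 0) :
    ∀ u ∈ U, pl (fun _ => (l.map fun N => 1 + N).prod) u ∈ U := by
  induction l with
  | nil =>
    intro u hu
    rw [List.map_nil, List.prod_nil, pl_one]
    exact hu
  | cons N l ih =>
    intro u hu
    rw [List.map_cons, List.prod_cons, ← pl_pl]
    have h1 := hl N (List.mem_cons_self ..)
    exact ih (fun M hM => hl M (List.mem_cons_of_mem _ hM)) _ (hEx T U hU N h1.1 h1.2 u hu)

/-- Products of exponentials are invertible. -/
theorem list_inv {T : Submodule ℂ (P → ℂ)} (l : List (Matrix R R ℂ))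
    (hl : ∀ N ∈ l, N ∈ GR cls inv jj T ∧ N * N = 0) :
    ∃ l' : List (Matrix R R ℂ), (∀ N ∈ l', N ∈ GR cls inv jj T ∧ N * N = 0) ∧
      (l'.map fun N => 1 + N).prod * (l.map fun N => 1 + N).prod = 1 := by
  induction l with
  | nil => exact ⟨[], fun N hN => absurd hN (List.not_mem_nil), by simp⟩
  | cons N l ih =>
    obtain ⟨l', h1, h2⟩ := ih fun M hM => hl M (List.mem_cons_of_mem _ hM)
    have hN := hl N (List.mem_cons_self ..)
    refine ⟨l' ++ [-N], fun M hM => ?_, ?_⟩
    · rcases List.mem_append.1 hM with h | h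
      · exact h1 M h
      · rw [List.mem_singleton] at h
        subst h
        exact ⟨Submodule.neg_mem _ hN.1, by rw [neg_mul_neg, hN.2]⟩
    · rw [List.map_append, List.prod_append, List.map_cons, List.map_nil, List.prod_cons,
        List.prod_nil, mul_one, List.map_cons, List.prod_cons]
      have h3 : (1 + -N) * (1 + N) = 1 := by
        rw [add_mul, one_mul, neg_mul, mul_add, mul_one, hN.2]
        abel
      calc _ = (l'.map fun N => 1 + N).prod * ((1 + -N) * (1 + N)) *
            (l.map fun N => 1 + N).prod := by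
            simp only [mul_assoc]
      _ = 1 := by rw [h3, mul_one, h2]

/-- **The main statement in the coordinates of a frame.** -/
theorem coreG (hH : S_HGT) (hV : S_VEC) (hDm : S_DOM) (hT : S_TOP) (hG : S_GRAPH)
    (hSh : S_SHIFTG) (hEx : S_EXPO) (hGe : S_GEN) [Nonempty S] (hF : Fr cls b inv jj X)
    (hbb : ∀ p, b (b p) = p) (e : S → P → ℤ) (he : ∀ s p, e s (b p) = -e s p)
    (he1 : ∀ s p, e s p = -1 ∨ e s p = 0 ∨ e s p = 1)
    (hpar : ∀ s p, Even (e s p + (univ.filter fun x => cls x = p).card)) (hsum : SumE cls e)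
    (Y : S → Matrix R R ℂ) (hY : ∀ s, Y s ∈ GR cls inv jj (Tsp e)) (hY2 : ∀ s, Y s * Y s = 1)
    (hYt : ∀ s p, ∑ x ∈ univ.filter (fun x => cls x = p), Y s x x = (e s p : ℂ))
    (U : Submodule ℂ ((κ → R) → ℂ)) (hU : StG cls inv jj (Tsp e) U) (hU0 : U ≠ ⊥) (n : ℕ)
    (hlev : ∀ s, LvC (Y s) n U) :
    ∃ (κ' : Type) (_ : Fintype κ') (_ : DecidableEq κ'), Fintype.card κ' ≤ n ∧
      ∃ φ : ((κ → R) → ℂ) →ₗ[ℂ] ((κ' → R) → ℂ),
        (∀ Y ∈ GR cls inv jj (Tsp e), ∀ u, φ (act Y u) = act Y (φ u)) ∧ ∃ u ∈ U, φ u ≠ 0 := by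
  obtain ⟨h, hh⟩ := hH hF
  obtain ⟨v, hvU, hv0, z₀, hz₀, hHV⟩ := hV (T := Tsp e) hF hh U hU hU0
  obtain ⟨c, hc⟩ : ∃ c, c = cnt inv z₀ := ⟨_, rfl⟩
  rw [← hc] at hHV
  have hdom := hDm hF hh v c hHV hv0
  have hlv : ∀ s d, IsSg cls inv (e s) d → |∑ x, c x * d x| ≤ 2 * n := by
    intro s d hd
    obtain ⟨l, hl, hYl⟩ := hGe hF hbb (Tsp e) (Y s) (hY s) (hY2 s) (e s) (hYt s) d hd
    obtain ⟨l', hl', hll⟩ := list_inv l hl
    have hu := pl_list hEx hU l' hl' v hvU
    have hdg : Dg cls inv (Tsp e) (fun x => (d x : ℂ)) := by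
      refine ⟨fun x => ?_, ?_⟩
      · beta_reduce
        rw [hd.odd]
        push_cast
        rfl
      · have h1 : (fun p => ∑ x ∈ univ.filter (fun x => cls x = p), (d x : ℂ)) =
            fun p => (e s p : ℂ) := by
          funext p
          rw [← hd.sum p]
          push_cast
          rfl
        rw [h1]
        exact mem_Tsp s
    have h1 := hHV.wts z₀ hz₀ _ hdg
    have h2 : (2 : ℤ) * ∑ k, d (z₀ k) = ∑ x, c x * d x := by
      unfold wt at h1
      beta_reduce at h1
      exact_mod_cast h1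
    have h3 : |∑ k, d (z₀ k)| ≤ (n : ℤ) := by
      by_contra hcon
      push Not at hcon
      apply hz₀
      have h4 := hlev s _ hu (fun k => (l.map fun N => 1 + N).prod *ᵥ Pi.single (z₀ k) 1)
        (fun k => d (z₀ k)) (fun k => hd.one _) (fun k => ?_) hcon
      · rw [evalF_pl] at h4
        simp only [mulVec_mulVec] at h4
        rw [hll] at h4
        simp only [one_mulVec] at h4
        rw [← evalF_single v z₀]
        exact h4
      · rw [mulVec_mulVec, hYl, ← mulVec_mulVec, ← mulVec_smul]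
        congr 1
        funext x
        rw [mulVec_single_one, Pi.smul_apply, smul_eq_mul]
        change (diagonal fun x => (d x : ℂ)) x (z₀ k) = _
        by_cases hx : x = z₀ k
        · subst hx
          rw [Matrix.diagonal_apply_eq, Pi.single_eq_same, mul_one]
        · rw [Matrix.diagonal_apply_ne _ hx, Pi.single_eq_of_ne hx, mul_zero]
    rw [← h2, abs_mul]
    have h5 : |(2 : ℤ)| = 2 := rfl
    rw [h5]
    omega
  obtain ⟨a, ha1, ha2, ha3⟩ := hSh hF hh hbb e he he1 hpar hsum c hHV.odd hdom n hlv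
  obtain ⟨c', hc'⟩ : ∃ c' : R → ℤ, c' = fun x => c x + a (cls x) := ⟨_, rfl⟩
  have hodd' : ∀ x, c' (inv x) = -c' x := by
    intro x
    rw [hc']
    change c (inv x) + a (cls (inv x)) = -(c x + a (cls x))
    rw [hHV.odd, hF.ci, ha1]
    ring
  have hdom' : ∀ x y, cls x = cls y → h x < h y → c' x ≤ c' y := by
    intro x y h1 h2
    rw [hc']
    change c x + a (cls x) ≤ c y + a (cls y)
    rw [h1]
    have h3 := hdom x y h1 h2
    omega
  obtain ⟨κ', i1, i2, w, hcard, hw0, hw⟩ := hT hF hh c' hodd' hdom'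
  refine ⟨κ', i1, i2, ?_, ?_⟩
  · rw [hcard]
    have h1 : ((∑ x, (c' x).toNat : ℕ) : ℤ) ≤ n := by
      rw [hc']
      exact_mod_cast ha3
    exact_mod_cast h1
  · obtain ⟨φ, hφ, hφv⟩ := hG hF hh Tsp_conj v w c c' hHV (hw _) hv0 hw0 (by
      rintro d ⟨-, hd2⟩
      have h1 : ∑ x, (c' x : ℂ) * d x = ∑ x, (c x : ℂ) * d x + ∑ x, (a (cls x) : ℂ) * d x := by
        rw [← sum_add_distrib]
        refine sum_congr rfl fun x _ => ?_
        rw [hc']
        push_cast
        ring
      have h2 : ∑ x, (a (cls x) : ℂ) * d x = 0 := by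
        rw [sum_cls (cls := cls) (P := P)]
        have h3 : ∀ p : P, ∑ x ∈ univ.filter (fun x => cls x = p), (a (cls x) : ℂ) * d x =
            (a p : ℂ) * ∑ x ∈ univ.filter (fun x => cls x = p), d x := by
          intro p
          rw [mul_sum]
          refine sum_congr rfl fun x hx => ?_
          rw [(mem_filter.1 hx).2]
        rw [sum_congr rfl fun p _ => h3 p]
        exact Tsp_orth ha2 hd2
      rw [h1, h2, add_zero])
    exact ⟨φ, hφ, v, hvU, by rw [hφv]; exact hw0⟩

end

end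

end Pool.Agent.N178.HX
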