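import Mathlib
import Pool.Agent.N178.HW.Maps
import Pool.Agent.N178.HX.CoreG
import Pool.Agent.N178.HX.StmE

/-!
# Equivariant maps to tensor spaces of small degree: arbitrary centre
-/

set_option linter.unusedSectionVars false

namespace Pool.Agent.N178.HX

open Matrix Module Pool.Agent.H204R3.SP Pool.Agent.W437.HC Pool.Agent.W437.HD Pool.Agent.V1168.GH
open Pool.Agent.W548.Odd (LA LA_self)
open Pool.Agent.Y4.K (Pol Pr Reps Dat mu pr qr Eqv Iso)
open Pool.Agent.Y4.H (Ct D_mem_LZ)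
open Pool.Agent.Y90 (PM AVZ IrS tr cjS DS AV IsHom DS_mem DS_sq LZ_le)
open Pool.Agent.R915 (LCF')
open Pool.Agent.N178.HW

noncomputable section

variable {g : ℕ} {Z : Matrix (Fin g) (Fin g) ℂ}

section main

variable {P R : Type} [Fintype P] [DecidableEq P] [Fintype R] [DecidableEq R]
  {ρ : P → Pr Z} {b : P → P} {Om' : Matrix (Fin g ⊕ Fin g) (Fin g ⊕ Fin g) ℂ}
  {cls : R → P} {inv : R → R} {jj : R → ℂ} {X : R → Prop} [DecidablePred X]
  {Ev : Matrix (Fin g ⊕ Fin g) R ℂ} {Co : Matrix R (Fin g ⊕ Fin g) ℂ}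

/-- The traces of the elements of the Lie algebra. -/
theorem trace_memG (M : Pol Z) {e : (ℂ ≃+* ℂ) → P → ℤ}
    (he : ∀ σ p, e σ p = tr Z (cjS σ.symm (rg (ρ p))))
    {Y : Matrix (Fin g ⊕ Fin g) (Fin g ⊕ Fin g) ℂ}
    (hY : Y ∈ Pool.Agent.Y90.LZ Z) : (fun p => trace (Y * (ρ p).e)) ∈ Tsp e := by
  let L' : Submodule ℂ (Matrix (Fin g ⊕ Fin g) (Fin g ⊕ Fin g) ℂ) :=
    { carrier := {Y | (∀ p, (ρ p).e * Y = Y * (ρ p).e) ∧ (fun p => trace (Y * (ρ p).e)) ∈ Tsp e}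
      zero_mem' := by
        refine ⟨fun p => by rw [mul_zero, zero_mul], ?_⟩
        have h1 : (fun p => trace ((0 : Matrix (Fin g ⊕ Fin g) (Fin g ⊕ Fin g) ℂ) * (ρ p).e)) = 0 := by
          funext p
          rw [zero_mul, trace_zero]
          rfl
        rw [h1]
        exact Submodule.zero_mem _
      add_mem' := by
        rintro A C ⟨a1, a2⟩ ⟨c1, c2⟩
        refine ⟨fun p => by rw [mul_add, add_mul, a1, c1], ?_⟩
        have h1 : (fun p => trace ((A + C) * (ρ p).e)) = (fun p => trace (A * (ρ p).e)) +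
            fun p => trace (C * (ρ p).e) := by
          funext p
          rw [add_mul, trace_add]
          rfl
        rw [h1]
        exact Submodule.add_mem _ a2 c2
      smul_mem' := by
        rintro r A ⟨a1, a2⟩
        refine ⟨fun p => by rw [Matrix.mul_smul, Matrix.smul_mul, a1], ?_⟩
        have h1 : (fun p => trace ((r • A) * (ρ p).e)) = r • fun p => trace (A * (ρ p).e) := by
          funext p
          rw [Matrix.smul_mul, trace_smul]
          rfl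
        rw [h1]
        exact Submodule.smul_mem _ _ a2 }
  have h1 : Pool.Agent.Y90.LZ Z ≤ L' := by
    refine LZ_le (fun σ => ?_) ?_
    · refine ⟨fun p => (ρ p).mem _ (mem_LZ' (DS_mem σ)), ?_⟩
      have h2 : (fun p => trace (DS Z σ * (ρ p).e)) = fun p => (e σ p : ℂ) := by
        funext p
        rw [trace_DS M, he]
      rw [h2]
      exact mem_Tsp σ
    · rintro A ⟨a1, a2⟩ C ⟨c1, c2⟩
      refine ⟨fun p => ?_, ?_⟩
      · have h2 : (ρ p).e * (A * C) = A * C * (ρ p).e := by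
          rw [← mul_assoc, a1, mul_assoc, c1, ← mul_assoc]
        have h3 : (ρ p).e * (C * A) = C * A * (ρ p).e := by
          rw [← mul_assoc, c1, mul_assoc, a1, ← mul_assoc]
        rw [mul_sub, sub_mul, h2, h3]
      · have h2 : (fun p => trace ((A * C - C * A) * (ρ p).e)) = 0 := by
          funext p
          have h3 : trace (C * A * (ρ p).e) = trace (A * C * (ρ p).e) := by
            rw [mul_assoc, trace_mul_comm, mul_assoc, c1 p, ← mul_assoc]
          rw [sub_mul, trace_sub, h3, sub_self]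
          rfl
        rw [h2]
        exact Submodule.zero_mem _
  exact (h1 hY).2

variable (F : FrM ρ b Om' cls inv jj X Ev Co)
include F

/-- The elements of the Lie algebra are in `GR`. -/
theorem mem_GRG (M : Pol Z) (Rp : Reps ρ) (Bs : Bas M ρ b Om') {e : (ℂ ≃+* ℂ) → P → ℤ}
    (he : ∀ σ p, e σ p = tr Z (cjS σ.symm (rg (ρ p))))
    {Y : Matrix (Fin g ⊕ Fin g) (Fin g ⊕ Fin g) ℂ}
    (hY : Y ∈ Pool.Agent.Y90.LZ Z) : Co * Y * Ev ∈ GR cls inv jj (Tsp e) := by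
  have hc : ∀ p, (ρ p).e * Y = Y * (ρ p).e := fun p => (ρ p).mem Y (mem_LZ' hY)
  refine ⟨F.cd_cls Rp hc, F.cd_sp hc (Bs.inv Y (mem_LZ' hY)), ?_⟩
  have h1 : (fun p => ∑ x ∈ Finset.univ.filter (fun x => cls x = p), (Co * Y * Ev) x x) =
      fun p => trace (Y * (ρ p).e) := funext fun p => F.cd_tr Rp Y p
  rw [h1]
  exact trace_memG M he hY

/-- The elements of `GR` extend to matrices which kill the invariant tensors. -/
theorem ext_GRG (hTK : S_TKG) (h : PM Z) (hL : LCF' Z) (M : Pol Z)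
    {u w : P → Matrix (Fin g ⊕ Fin g) (Fin g ⊕ Fin g) ℂ} (Rp : Reps ρ) (Dt : Dat M ρ b u w)
    (hOm : Om' = Om g ℂ * ∑ p, u p) {e : (ℂ ≃+* ℂ) → P → ℤ}
    (he : ∀ σ p, e σ p = tr Z (cjS σ.symm (rg (ρ p))))
    {Y : Matrix R R ℂ} (hY : Y ∈ GR cls inv jj (Tsp e)) :
    ∃ N ∈ Tk (Pool.Agent.Y90.LZ Z), (∀ c, Ct Z c → N * c = c * N) ∧ N * Ev = Ev * Y := by
  classical
  have Bs := exists_bas M Rp Dt
  rw [← hOm] at Bs
  obtain ⟨hY1, hY2, hY3⟩ := hY
  obtain ⟨lam, hlam⟩ := (Finsupp.mem_span_range_iff_exists_finsupp).1 hY3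
  have hS1 := F.up_cls Rp hY1
  have hS2 := F.up_sp M Dt.bb Bs hY2
  rw [hOm] at hS2
  obtain ⟨N, hN1, hN2, hN3⟩ := M.morita Rp Dt hS1 hS2
  let sy : (ℂ ≃+* ℂ) ↪ (ℂ ≃+* ℂ) := ⟨fun σ => σ.symm, fun σ τ h => by
    have h1 := congrArg RingEquiv.symm h
    rwa [RingEquiv.symm_symm, RingEquiv.symm_symm] at h1⟩
  refine ⟨N, hTK h hL N (lam.support.map sy) (fun σ => lam σ.symm) hN1 hN2 ?_, hN1, ?_⟩
  · intro W hW hNW
    obtain ⟨φ, rfl⟩ := pr_of_irr h hW
    rw [trace_rg hNW]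
    obtain ⟨p, hp⟩ := Rp.surj φ
    have h1 := Eqv.trace hp (X := N) fun c hc => (hN1 c hc).symm
    rw [← h1, hN3, F.up_tr Rp]
    have h2 := congrFun hlam p
    beta_reduce at h2
    rw [← h2, Finsupp.sum, Finset.sum_apply, Finset.sum_map]
    refine Finset.sum_congr rfl fun σ _ => ?_
    change lam σ * (e σ p : ℂ) = lam σ.symm.symm * (tr Z (cjS σ.symm (rg φ)) : ℂ)
    rw [RingEquiv.symm_symm, he, ← trace_DS M, ← trace_DS M]
    congr 1
    exact Eqv.trace hp fun c hc => hc _ (mem_LZ' (DS_mem σ))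
  · calc N * Ev = N * ((∑ p, (ρ p).e) * Ev) := by rw [F.EEv]
    _ = (∑ p, N * (ρ p).e) * Ev := by rw [← Matrix.mul_assoc, Finset.mul_sum]
    _ = (∑ p, (Ev * Y * Co) * (ρ p).e) * Ev := by
      rw [Finset.sum_congr rfl fun p _ => hN3 p]
    _ = (Ev * Y * Co) * ((∑ p, (ρ p).e) * Ev) := by rw [← Finset.mul_sum, Matrix.mul_assoc]
    _ = Ev * Y := by rw [F.EEv, Matrix.mul_assoc, F.ce, Matrix.mul_one]

end main

/-- The conjugates of an idempotent have the same trace. -/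
theorem even_tr (M : Pol Z) (σ : ℂ ≃+* ℂ) (φ : Pr Z) (m : ℕ) (hm : (m : ℂ) = trace φ.e) :
    Even (tr Z (cjS σ (rg φ)) + m) := by
  have h1 : trace (M.act σ φ).e = (m : ℂ) := by
    rw [M.act_e]
    have h2 : trace (φ.e.map (σ : ℂ →+* ℂ)) = σ (trace φ.e) := by
      unfold trace
      rw [map_sum]
      rfl
    rw [h2, ← hm, map_natCast]
  rw [M.trace_e] at h1
  have h3 : mu (M.act σ φ) + mu (M.bar (M.act σ φ)) = m := by exact_mod_cast h1
  rw [cj_rg M, tr_rg M, ← h3]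
  refine ⟨mu (M.act σ φ), ?_⟩
  push_cast
  ring

/-- **The maps.** -/
theorem mapsG (hTK : S_TKG) (hDAT : S_DAT) (hSh : S_SHIFTG) (hEx : S_EXPO) (hGe : S_GEN) :
    S_MAPSG := by
  classical
  intro g Z h hL htr hsum n j U hU0 hUs hUl
  have M : Pol Z := ⟨h.symm, h.pos⟩
  obtain ⟨P, hP, ρ, Rp⟩ := M.exists_reps
  obtain ⟨b, u, w, Dt⟩ := hDAT h M hL Rp
  have Bs := exists_bas M Rp Dt
  obtain ⟨Om', hOm'⟩ : ∃ Om', Om' = Om g ℂ * ∑ p, u p := ⟨_, rfl⟩
  rw [← hOm'] at Bs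
  obtain ⟨R, hR1, hR2, cls, inv, jj, X, hX, Ev, Co, F⟩ := exists_frM M Rp Dt.bb Bs
  have hirr : ∀ p, IrS (Pool.Agent.Y90.LZ Z) (rg (ρ p)) := fun p => irr_rg h (ρ p)
  obtain ⟨e, he⟩ : ∃ e : (ℂ ≃+* ℂ) → P → ℤ, ∀ σ p, e σ p = tr Z (cjS σ.symm (rg (ρ p))) :=
    ⟨_, fun _ _ => rfl⟩
  -- the elements `Y σ`
  obtain ⟨Y, hYd⟩ : ∃ Y : (ℂ ≃+* ℂ) → Matrix R R ℂ, ∀ σ, Y σ = Co * DS Z σ * Ev := ⟨_, fun _ => rfl⟩
  have hY : ∀ σ, Y σ ∈ GR cls inv jj (Tsp e) := fun σ => by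
    rw [hYd]
    exact mem_GRG F M Rp Bs he (DS_mem σ)
  have hY2 : ∀ σ, Y σ * Y σ = 1 := by
    intro σ
    have h1 := (F.cd (Y := DS Z σ) fun p => (ρ p).mem _ (mem_LZ' (DS_mem σ))).1
    have h2 : DS Z σ * DS Z σ = 1 := by
      have h3 : DZ Z * DZ Z = 1 := M.D_sq
      have h4 := congrArg (fun A => A.map (σ : ℂ →+* ℂ)) h3
      beta_reduce at h4
      rw [Matrix.map_mul, Matrix.map_one _ (map_zero _) (map_one _)] at h4
      exact h4
    calc Y σ * Y σ = Co * DS Z σ * (Ev * (Co * DS Z σ * Ev)) := by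
          rw [hYd, Matrix.mul_assoc (Co * DS Z σ)]
    _ = Co * (DS Z σ * DS Z σ) * Ev := by
          rw [← h1]
          simp only [Matrix.mul_assoc]
    _ = 1 := by rw [h2, Matrix.mul_one, F.ce]
  have hYt : ∀ σ p, ∑ x ∈ Finset.univ.filter (fun x => cls x = p), Y σ x x = (e σ p : ℂ) := by
    intro σ p
    rw [hYd, F.cd_tr Rp, trace_DS M, he]
  have hodd : ∀ σ p, e σ (b p) = -e σ p := by
    intro σ p
    have h1 : (e σ (b p) : ℂ) = -(e σ p : ℂ) := by
      rw [← hYt, ← hYt, ← Finset.sum_neg_distrib]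
      refine Finset.sum_bij (fun x _ => inv x) ?_ ?_ ?_ ?_
      · intro x hx
        rw [Finset.mem_filter] at hx ⊢
        rw [F.fr.ci, hx.2, Dt.bb]
        exact ⟨Finset.mem_univ _, rfl⟩
      · intro x _ y _ hxy
        rw [← F.fr.ii x, hxy, F.fr.ii]
      · intro y hy
        rw [Finset.mem_filter] at hy
        refine ⟨inv y, ?_, F.fr.ii y⟩
        rw [Finset.mem_filter, F.fr.ci, hy.2]
        exact ⟨Finset.mem_univ _, rfl⟩
      · intro x _
        have h2 := (hY σ).2.1 x x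
        have h3 : jj x * jj x = 1 := by
          rcases F.fr.j1 x with h4 | h4 <;> rw [h4] <;> norm_num
        rw [h2, h3, one_mul, neg_neg]
    exact_mod_cast h1
  have he1 : ∀ σ p, e σ p = -1 ∨ e σ p = 0 ∨ e σ p = 1 := fun σ p => by
    rw [he]
    exact htr _ ((hirr p).cj Pool.Agent.Y90.gal_LZ σ.symm)
  have hpar : ∀ σ p, Even (e σ p + (Finset.univ.filter fun x => cls x = p).card) := fun σ p => by
    rw [he]
    exact even_tr M _ _ _ (F.card_cls Rp p)
  -- the sums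
  have hs : SumE cls e := by
    intro m N hm
    obtain ⟨I', hI', W, hW, hc, hW2⟩ := hsum (fun p => rg (ρ p)) m N hirr fun σ => by
      have h1 := hm σ.symm
      have h2 : ∀ p, e σ.symm p = tr Z (cjS σ (rg (ρ p))) := fun p => by
        rw [he, RingEquiv.symm_symm]
      simp only [h2] at h1
      exact h1
    have hq : ∀ i, ∃ p, (Finset.univ.filter fun x => cls x = p).card = 1 ∧
        ∀ σ, tr Z (cjS σ (W i)) = e σ.symm p := by
      intro i
      obtain ⟨φ, hφ⟩ := pr_of_irr h (hW i).1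
      have hWi := (hW i).2
      rw [← hφ] at hWi
      obtain ⟨p, hp⟩ := Rp.surj φ
      refine ⟨p, ?_, fun σ => ?_⟩
      · have h1 : ((Finset.univ.filter fun x => cls x = p).card : ℂ) = 1 := by
          rw [F.card_cls Rp]
          have h2 := Eqv.trace hp (X := 1) fun c _ => by rw [mul_one, one_mul]
          rw [one_mul, one_mul] at h2
          rw [h2, Pool.Agent.Y4.G.trace_idemM φ.idem]
          have h3 : finrank ℂ (LinearMap.range (mulVecLin φ.e)) = 1 := hWi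
          rw [h3, Nat.cast_one]
        exact_mod_cast h1
      · have h1 : (tr Z (cjS σ (W i)) : ℂ) = (e σ.symm p : ℂ) := by
          rw [he, RingEquiv.symm_symm, ← hφ]
          have h2 := trace_DS M σ.symm φ
          have h3 := trace_DS M σ.symm (ρ p)
          rw [RingEquiv.symm_symm] at h2 h3
          rw [← h2, ← h3]
          exact (Eqv.trace hp fun c hc => hc _ (mem_LZ' (DS_mem _))).symm
        exact_mod_cast h1
    choose q hq1 hq2 using hq
    have hfib : ∀ σ, ∑ p, ((Finset.univ.filter fun i => q i = p).card : ℤ) * e σ p =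
        ∑ i, e σ (q i) := by
      intro σ
      rw [← Finset.sum_fiberwise_of_maps_to (s := Finset.univ) (t := Finset.univ) (g := q)
        (fun x _ => Finset.mem_univ _)]
      refine Finset.sum_congr rfl fun p _ => ?_
      rw [Finset.sum_congr rfl fun i hi => by rw [(Finset.mem_filter.1 hi).2], Finset.sum_const,
        nsmul_eq_mul]
    refine ⟨fun p => (Finset.univ.filter fun i => q i = p).card, fun p hp => ?_, ?_, fun σ => ?_⟩
    · obtain ⟨i, hi⟩ := Finset.card_pos.1 (Nat.pos_of_ne_zero hp)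
      rw [← (Finset.mem_filter.1 hi).2]
      exact hq1 i
    · have h1 := Finset.card_eq_sum_card_fiberwise (s := (Finset.univ : Finset I'))
        (t := (Finset.univ : Finset P)) (f := q) (fun x _ => Finset.mem_coe.2 (Finset.mem_univ _))
      rw [← h1, Finset.card_univ]
      exact hc
    · rw [hfib]
      have h1 := hW2 σ.symm
      have h2 : ∑ p, m p * e σ p = ∑ i, m i * tr Z (cjS σ.symm (rg (ρ i))) :=
        Finset.sum_congr rfl fun p _ => by rw [he σ p]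
      rw [h2, ← h1]
      refine Finset.sum_congr rfl fun i _ => ?_
      rw [hq2, RingEquiv.symm_symm]
  -- stability under the matrices which kill the invariant tensors
  obtain ⟨S, Si, H, -⟩ := M.herm
  have hLL : Pool.Agent.Y90.LZ Z = LA {DZ Z} := rfl
  have hUk : Stb (Tk (LA {DZ Z})) U := by
    refine Pool.Agent.N134.HW.t_STB (Om := Om g ℂ) (S := S) (Si := Si) (Om_transpose ℂ) (Om_sq ℂ)
      (fun Y hY => h.sp hY) H.SiS (fun Y hY => ?_) U hUs
    have h1 := H.adj Y (mem_LZ' hY)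
    change _ ∈ Pool.Agent.Y90.LZ Z
    rw [← LZ_eq]
    exact h1
  -- the copies
  obtain ⟨I, hI, ε, α, β, r, hPl⟩ := plc_of M Rp
  obtain ⟨u0, hu0, hu00⟩ := Submodule.exists_mem_ne_zero_of_ne_bot hU0
  have hαE : ∀ i, α i * (Ev * Co) = α i := by
    intro i
    rw [F.ec]
    nth_rewrite 1 [← hPl.ra i]
    rw [Matrix.mul_assoc, F.eE Rp, hPl.ra]
  have hsum' : ∑ i, (α i * Ev) * (Co * β i) = 1 := by
    rw [← hPl.sum]
    refine Finset.sum_congr rfl fun i _ => ?_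
    rw [← hPl.ab, Matrix.mul_assoc, ← Matrix.mul_assoc Ev, ← Matrix.mul_assoc, hαE]
  obtain ⟨t, ht⟩ := exists_pl_ne hsum' hu00
  obtain ⟨A, hA⟩ : ∃ A : Fin (n + 2 * j) → Matrix (Fin g ⊕ Fin g) R ℂ,
    A = fun k => α (t k) * Ev := ⟨_, rfl⟩
  rw [← hA] at ht
  have hcd : ∀ Y ∈ LA {DZ Z}, ∀ k, A k * (Co * Y * Ev) = Y * A k := by
    intro Y hY k
    rw [hA]
    change α (t k) * Ev * (Co * Y * Ev) = Y * (α (t k) * Ev)
    have h1 := (F.cd (Y := Y) fun p => (ρ p).mem Y (mem_LZ' hY)).1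
    have h2 := hPl.ca (t k) Y (mem_LZ' hY)
    rw [Matrix.mul_assoc, ← h1, ← Matrix.mul_assoc, h2, Matrix.mul_assoc]
  have hUst : StG cls inv jj (Tsp e) (U.map (pl A)) := by
    rintro Y hY _ ⟨c, hc, rfl⟩
    obtain ⟨N, hN, hN1, hN2⟩ := ext_GRG F hTK h hL M Rp Dt hOm' he hY
    refine ⟨act N c, hUk N hN c hc, ?_⟩
    refine (act_pl (fun k => ?_) c).symm
    rw [hA]
    change α (t k) * Ev * Y = N * (α (t k) * Ev)
    rw [Matrix.mul_assoc, ← hN2, ← Matrix.mul_assoc, ← hN1 _ (hPl.ca (t k)), Matrix.mul_assoc]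
  have hU'0 : U.map (pl A) ≠ ⊥ := by
    intro h0
    have h1 : pl A u0 ∈ U.map (pl A) := ⟨u0, hu0, rfl⟩
    rw [h0, Submodule.mem_bot] at h1
    exact ht h1
  have hlev : ∀ σ, LvC (Y σ) n (U.map (pl A)) := by
    rintro σ _ ⟨c, hc, rfl⟩ x ε' hε hx hn
    rw [evalF_pl]
    refine hUl σ c hc _ ε' hε (fun k => ?_) hn
    have h1 := hcd (DS Z σ) (DS_mem σ) k
    rw [mulVec_mulVec]
    change (DS Z σ * A k) *ᵥ x k = _
    rw [← h1, ← hYd, ← mulVec_mulVec, hx, mulVec_smul]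
  obtain ⟨κ', i1, i2, hcard, φ, hφ, c, ⟨v, hv, rfl⟩, hcφ⟩ :=
    coreG Pool.Agent.N42.GHC.t_HGT Pool.Agent.N661.GHC.t_VEC Pool.Agent.N42.GHC.t_DOM
      Pool.Agent.N78.GHC.t_TOP Pool.Agent.N803.GHC.t_GRAPH hSh hEx hGe F.fr Dt.bb e hodd he1 hpar
      hs Y hY hY2 hYt (U.map (pl A)) hUst hU'0 n hlev
  have hGR : ∀ Y ∈ LA {DZ Z}, Co * Y * Ev ∈ GR cls inv jj (Tsp e) := fun Y hY =>
    mem_GRG F M Rp Bs he hY
  refine ⟨κ', i1, i2, hcard, ?_, (pl fun _ => Co).comp (φ.comp (pl A)), fun Y hY c => ?_, v, hv,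
    ?_⟩
  · -- the parity
    have hDD : Co * DZ Z * Ev = diagonal fun z => (sX X z : ℂ) := by
      rw [Matrix.mul_assoc, F.D, ← Matrix.mul_assoc, F.ce, Matrix.one_mul]
    have h1 := parity (X := X) (φ := φ) (fun c => by
      rw [← hDD]
      exact hφ _ (hGR _ (LA_self (Set.mem_singleton _))) c) hcφ
    rw [Fintype.card_fin] at h1
    rw [Nat.even_iff] at h1 ⊢
    omega
  · rw [LinearMap.comp_apply, LinearMap.comp_apply, LinearMap.comp_apply, LinearMap.comp_apply,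
      ← act_pl (hcd Y hY), hφ _ (hGR Y hY)]
    refine (act_pl (fun _ => ?_) _).symm
    exact (F.cd (Y := Y) fun p => (ρ p).mem Y (mem_LZ' hY)).2
  · intro h0
    apply hcφ
    rw [LinearMap.comp_apply, LinearMap.comp_apply] at h0
    have h1 := congrArg (pl fun _ => Ev) h0
    rw [pl_pl, map_zero, F.ce, pl_one] at h1
    exact h1

end

end Pool.Agent.N178.HX
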