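import Mathlib
import Pool.Agent.N178.HW.Fac
import Pool.Agent.N178.HX.MapsG

/-!
# The generalized Hodge conjecture for independent fields
-/

set_option linter.unusedSectionVars false

namespace Pool.Agent.N178.HX

open Finset Matrix Module NumberField Pool.Agent.W437.HC Pool.Agent.W437.HD Pool.Agent.Y90
open Pool.Agent.R915 Pool.Agent.N178.HW
open Pool.Agent.H204R3.CM (IsHodge IsCMType)
open Pool.Agent.W546.GHC (IsHodgeSubstructure LevelLE)
open Pool.Agent.W547.KB (CMPair CMAV single)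
open Pool.Agent.N830.HC (HasCMultIn AllowedIn Allowed Frame av HasCMultIn.cm)

noncomputable section

theorem Cls.sub {K : Type} {L : K → Type} [∀ k, Field (L k)] {X Y : AV} {f : X.H →ₗ[ℚ] Y.H}
    (hf : IsHom X Y f) (hi : Function.Injective f) (h : Cls L Y) : Cls L X :=
  fun W hW => h W (factor_sub hf hi hW)

theorem Cls.prod {K : Type} {L : K → Type} [∀ k, Field (L k)] {X Y : AV} (hX : Cls L X)
    (hY : Cls L Y) : Cls L (prodAV X Y) := fun W hW => by
  rcases factor_prod hW with h | h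
  · exact hX W h
  · exact hY W h

/-- The main statement for independent fields. -/
theorem maing (hMULT : S_MULT) (hRATG : S_RATG) (hASM : S_ASMG) (hCL : S_CL) (hLOC : S_LOCG)
    (hLINE : S_LINEA) (hSUM : S_SUMA) (hMAPS : S_MAPSG) : S_MAING := by
  classical
  intro K _ L _ _ _ _ hind 𝒜 hall X hX
  obtain ⟨C, hC, hCP⟩ := hCL L
  refine hASM hMULT hRATG 𝒜 (Cls L) (fun X Y f hf hi hY => hY.sub hf hi)
    (fun X Y hX hY => hX.prod hY) hall C hC (fun {g Z} h f hf hfi hQ n j => ?_) X hX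
  have hj : ∀ k, Nonempty (L k →+* ℂ) := fun k => inferInstance
  obtain ⟨j', -⟩ : ∃ j' : ∀ k, L k →+* ℂ, True := ⟨fun k => Classical.choice (hj k), trivial⟩
  obtain ⟨h1, h2, h3⟩ := hLOC L j' h hQ
  refine hMAPS h h1 h2 (hSUM h L j' hind h3 fun k Φ hΦ => ?_) n j
  obtain ⟨f', hf', hfi'⟩ := hCP k Φ hΦ
  exact hLINE h ⟨L k, Φ, hΦ⟩ (j' k) (f.comp f') (hom_comp hf' hf) (hfi.comp hfi')

end

end Pool.Agent.N178.HX
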