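import Mathlib
import Pool.Agent.N178.HX.StmE

/-!
# Families of CM types with the sums property: statements
-/

set_option linter.unusedSectionVars false

namespace Pool.Agent.N178.HX

open Finset Matrix Module NumberField Pool.Agent.W437.HC Pool.Agent.W437.HD Pool.Agent.Y90
open Pool.Agent.R915 Pool.Agent.N178.HW
open Pool.Agent.H204R3.CM (IsHodge IsCMType)
open Pool.Agent.W547.KB (CMPair CMAV single)
open Pool.Agent.W547.LN (SameType)
open Pool.Agent.N830.HC (HasCMultIn AllowedIn Allowed Frame av)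

noncomputable section

open Classical in
/-- The sign `1` if the embedding `σ ∘ φ` is in the CM type, and `-1` otherwise. -/
def sg (P : CMPair) (σ : ℂ ≃+* ℂ) (φ : P.E →+* ℂ) : ℤ :=
  if (σ : ℂ →+* ℂ).comp φ ∈ P.Φ then 1 else -1

/-- The sums property for the CM types `T k`, `k` in the set `B`: each integral combination, with
absolute values at most `N`, of the functions `σ ↦ sg (T k) σ φ` is a sum of at most `N` functions of
this kind. -/
def SP {K : Type} [Fintype K] (T : K → CMPair) (B : Set K) : Prop :=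
  ∀ (m : ∀ k, ((T k).E →+* ℂ) → ℤ) (N : ℕ), (∀ k, k ∉ B → ∀ φ, m k φ = 0) →
    (∀ σ : ℂ ≃+* ℂ, |∑ k, ∑ φ, m k φ * sg (T k) σ φ| ≤ N) →
    ∃ a : ∀ k, ((T k).E →+* ℂ) → ℕ, (∀ k, k ∉ B → ∀ φ, a k φ = 0) ∧ ∑ k, ∑ φ, a k φ ≤ N ∧
      ∀ σ : ℂ ≃+* ℂ, ∑ k, ∑ φ, (a k φ : ℤ) * sg (T k) σ φ = ∑ k, ∑ φ, m k φ * sg (T k) σ φ

/-- Each simple factor `Y` of `X` is a simple factor of one of the abelian varieties with the CM
types `T k`; or it has no complex multiplication, belongs to one of the classes on the right hand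
side, and if `ℚ(√-d)` acts on `Y` with two different multiplicities then `Y` is not a fourfold and
the elliptic curve with complex multiplication by this field is a factor of one of the abelian
varieties with the CM types `T k`. -/
def ClsT {K : Type} (T : K → CMPair) (X : AV) : Prop :=
  ∀ Y, IsFactor Y X → (∃ k, IsFactor Y (av (single (T k)))) ∨ (¬ HasCMult Y ∧
    (finrank ℚ Y.H ≤ 6 ∨ QuadMult Y ∨ RealMult Y ∨ FiveDim Y ∨ FullHodge Y) ∧
      ∀ d : ℚ, Unbalanced Y d → finrank ℚ Y.H ≠ 8 ∧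
        ∃ k E, IsFactor E (av (single (T k))) ∧ finrank ℚ E.H = 2 ∧ Unbalanced E d)

/-- All CM types of the CM fields in the block `B` are conjugate, simultaneously. -/
def SignB {K : Type} (T : K → CMPair) (B : Set K) : Prop :=
  ∀ Ψ : ∀ k, Set ((T k).E →+* ℂ), (∀ k, IsCMType (Ψ k)) →
    ∃ σ : ℂ ≃+* ℂ, ∀ k ∈ B, ∀ φ, φ ∈ Ψ k ↔ (σ : ℂ →+* ℂ).comp φ ∈ (T k).Φ

/-- The CM fields of the block `B` are subfields of the Galois CM field `L`, and all CM types of `L`
occur. -/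
def GalB {K : Type} (T : K → CMPair) (B : Set K) (L : Type) [Field L] [NumberField L]
    [IsCMField L] : Prop :=
  IsGalois ℚ L ∧ (∀ k ∈ B, Nonempty ((T k).E →+* L)) ∧
    ∀ (Φ : Set (L →+* ℂ)) (hΦ : IsCMType Φ), ∃ k ∈ B, SameType ⟨L, Φ, hΦ⟩ (T k)

/-- The blocks are independent. -/
def IndB {K J : Type} (T : K → CMPair) (b : K → J) : Prop :=
  ∀ τ : J → (ℂ ≃+* ℂ), ∃ σ : ℂ ≃+* ℂ, ∀ k (φ : (T k).E →+* ℂ),
    (σ : ℂ →+* ℂ).comp φ = (τ (b k) : ℂ →+* ℂ).comp φ

/-- The local conditions and the traces of the complex structure on the irreducible submodules. -/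
def S_LOCT : Prop := ∀ {K : Type} (T : K → CMPair) {g : ℕ} {Z : Matrix (Fin g) (Fin g) ℂ}
  (h : PM Z), ClsT T (AVZ h) → LCF' Z ∧
    (∀ U, IrS (Pool.Agent.Y90.LZ Z) U → tr Z U = -1 ∨ tr Z U = 0 ∨ tr Z U = 1) ∧
    ∀ U, IrS (Pool.Agent.Y90.LZ Z) U → (∀ σ : ℂ ≃+* ℂ, tr Z (cjS σ U) = 0) ∨
      ∃ k φ, ∀ σ : ℂ ≃+* ℂ, tr Z (cjS σ U) = sg (T k) σ φ

/-- The Hodge conjecture for the class, from the products of abelian varieties of CM type. -/
def S_ALLT : Prop := ∀ {K : Type} (T : K → CMPair) (𝒜 : Sys),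
  (∀ C : CMAV, (∀ i, ∃ k, C.factor i = T k) → 𝒜.AllHodge (av C)) →
    ∀ X : AV, ClsT T X → 𝒜.AllHodge X

/-- The sums property for blocks of the first kind. -/
def S_SPI : Prop := ∀ {K : Type} [Fintype K] (T : K → CMPair) (B : Set K), SignB T B → SP T B

/-- The sums property for blocks of the second kind. -/
def S_SPG : Prop := ∀ {K : Type} [Fintype K] (T : K → CMPair) (B : Set K) (L : Type) [Field L]
  [NumberField L] [IsCMField L], GalB T B L → SP T B

/-- The sums property for independent blocks. -/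
def S_SPB : Prop := ∀ {K J : Type} [Fintype K] (T : K → CMPair) (b : K → J), IndB T b →
  (∀ j, SP T {k | b k = j}) → SP T Set.univ

/-- The Hodge conjecture for independent blocks. -/
def S_HCB : Prop := ∀ {K J : Type} [Fintype K] (T : K → CMPair) (b : K → J), IndB T b →
  (∀ j, SignB T {k | b k = j} ∨ ∃ (L : Type) (_ : Field L) (_ : NumberField L) (_ : IsCMField L),
    GalB T {k | b k = j} L ∧ finrank ℚ L ≤ 6) → ∀ 𝒜 : Sys, ∀ C : CMAV,
      (∀ i, ∃ k, C.factor i = T k) → 𝒜.AllHodge (av C)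

/-- Complex multiplication by subfields, and factors of abelian varieties of CM type. -/
def S_TOT : Prop := ∀ (L : Type) [Field L] [NumberField L] [IsCMField L],
  (∀ Y : AV, IsSimple Y → HasCMultIn Y L →
    ∃ (Φ : Set (L →+* ℂ)) (hΦ : IsCMType Φ), IsFactor Y (av (single ⟨L, Φ, hΦ⟩))) ∧
  ∀ d : ℚ, 0 < d → (∃ s : L, s * s = -(d : L)) → ∃ (Φ : Set (L →+* ℂ)) (hΦ : IsCMType Φ) (E : AV),
    IsFactor E (av (single ⟨L, Φ, hΦ⟩)) ∧ finrank ℚ E.H = 2 ∧ Unbalanced E d

/-- The criterion. -/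
def S_MAINT : Prop := ∀ {K : Type} [Fintype K] (T : K → CMPair), SP T Set.univ → ∀ 𝒜 : Sys,
  (∀ X : AV, ClsT T X → GHC 𝒜 X) ↔
    ∀ C : CMAV, (∀ i, ∃ k, C.factor i = T k) → 𝒜.AllHodge (av C)

end

end Pool.Agent.N178.HX
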