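import Mathlib
import Pool.Agent.N178.HX.Main
import Pool.Agent.N178.HX.StmF

/-!
# The criterion: families of CM types with the sums property
-/

set_option linter.unusedSectionVars false

namespace Pool.Agent.N178.HX

open Finset Matrix Module NumberField Pool.Agent.W437.HC Pool.Agent.W437.HD Pool.Agent.Y90
open Pool.Agent.R915 Pool.Agent.N178.HW
open Pool.Agent.H204R3.CM (IsHodge IsCMType)
open Pool.Agent.W546.GHC (IsHodgeSubstructure LevelLE)
open Pool.Agent.W547.KB (CMPair CMAV single)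
open Pool.Agent.N830.HC (HasCMultIn AllowedIn Allowed Frame av HasCMultIn.cm inj_of_simple)

noncomputable section

/-- The inclusion of one factor. -/
theorem exists_incl (C : CMAV) (k : C.I) : ∃ f : (av (single (C.factor k))).H →ₗ[ℚ] (av C).H,
    IsHom (av (single (C.factor k))) (av C) f ∧ Function.Injective f := by
  classical
  let f : (single (C.factor k)).H1 →ₗ[ℚ] C.H1 :=
    (LinearMap.single ℚ (fun i => (C.factor i).E) k).comp
      (LinearMap.proj () : (single (C.factor k)).H1 →ₗ[ℚ] (C.factor k).E)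
  let Ψ : (single (C.factor k)).Tan →ₗ[ℂ] C.Tan :=
    (LinearMap.single ℂ (fun i => (C.factor i).Φ → ℂ) k).comp
      (LinearMap.proj () : (single (C.factor k)).Tan →ₗ[ℂ] ((C.factor k).Φ → ℂ))
  refine ⟨f, ⟨Ψ, fun v => ?_⟩, ?_⟩
  · funext i φ
    change (Pi.single k ((single (C.factor k)).per v ()) : C.Tan) i φ =
      φ.1 ((Pi.single k (v ()) : C.H1) i)
    by_cases h : i = k
    · subst h
      rw [Pi.single_eq_same, Pi.single_eq_same]
      rfl
    · rw [Pi.single_eq_of_ne h, Pi.single_eq_of_ne h, map_zero]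
      rfl
  · intro v w h
    have h1 : (Pi.single k (v ()) : C.H1) k = (Pi.single k (w ()) : C.H1) k := congrFun h k
    rw [Pi.single_eq_same, Pi.single_eq_same] at h1
    funext u
    exact h1

/-- Simple factors of products of abelian varieties of CM type. -/
theorem factor_av {C : CMAV} {Y : AV} (hY : IsFactor Y (av C)) :
    ∃ k, IsFactor Y (av (single (C.factor k))) := by
  obtain ⟨hs, i, hi, hinj⟩ := hY
  obtain ⟨k, hk⟩ : ∃ k : C.I, (LinearMap.proj k : C.H1 →ₗ[ℚ] (C.factor k).E).comp i ≠ 0 := by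
    by_contra hcon
    push Not at hcon
    obtain ⟨y, hy⟩ := hs.1
    refine hy (hinj ?_)
    rw [map_zero]
    funext k
    exact congrArg (fun φ => φ y) (hcon k)
  let P := C.factor k
  let e : (av (single P)).H ≃ₗ[ℚ] P.E := LinearEquiv.funUnique Unit ℚ P.E
  let j : Y.H →ₗ[ℚ] (av (single P)).H :=
    e.symm.toLinearMap.comp ((LinearMap.proj k : C.H1 →ₗ[ℚ] (C.factor k).E).comp i)
  have hj : IsHom Y (av (single P)) j := by
    obtain ⟨Ψ, hΨ⟩ := hi
    refine ⟨{ toFun := fun t => ((fun _ φ => (Ψ t : C.Tan) k φ) : (single P).Tan)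
              map_add' := fun u v => ?_
              map_smul' := fun c u => ?_ }, fun v => ?_⟩
    · funext _ φ
      exact congrFun (congrFun (map_add Ψ u v) k) φ
    · funext _ φ
      exact congrFun (congrFun (map_smul Ψ c u) k) φ
    · funext _ φ
      exact congrFun (congrFun (hΨ v) k) φ
  refine ⟨k, hs, j, hj, inj_of_simple hs hj fun h0 => hk ?_⟩
  refine LinearMap.ext fun y => ?_
  have h1 := LinearMap.congr_fun h0 y
  have h2 : e (j y) = 0 := by rw [h1, LinearMap.zero_apply, map_zero]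
  exact h2

theorem cls_av {K : Type} {T : K → CMPair} {C : CMAV} (hC : ∀ i, ∃ k, C.factor i = T k) :
    ClsT T (av C) := by
  intro Y hY
  obtain ⟨i, hi⟩ := factor_av hY
  obtain ⟨k, hk⟩ := hC i
  rw [hk] at hi
  exact Or.inl ⟨k, hi⟩

theorem ClsT.sub {K : Type} {T : K → CMPair} {X Y : AV} {f : X.H →ₗ[ℚ] Y.H}
    (hf : IsHom X Y f) (hi : Function.Injective f) (h : ClsT T Y) : ClsT T X :=
  fun W hW => h W (factor_sub hf hi hW)

theorem ClsT.prod {K : Type} {T : K → CMPair} {X Y : AV} (hX : ClsT T X)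
    (hY : ClsT T Y) : ClsT T (prodAV X Y) := fun W hW => by
  rcases factor_prod hW with h | h
  · exact hX W h
  · exact hY W h

/-- The sums property for the irreducible submodules. -/
theorem sumP_of {K : Type} [Fintype K] {T : K → CMPair} (hT : SP T Set.univ) {g : ℕ}
    {Z : Matrix (Fin g) (Fin g) ℂ}
    (h1 : ∀ U, IrS (Pool.Agent.Y90.LZ Z) U → (∀ σ : ℂ ≃+* ℂ, tr Z (cjS σ U) = 0) ∨
      ∃ k φ, ∀ σ : ℂ ≃+* ℂ, tr Z (cjS σ U) = sg (T k) σ φ)
    (h2 : ∀ k φ, ∃ U, IrS (Pool.Agent.Y90.LZ Z) U ∧ finrank ℂ U = 1 ∧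
      ∀ σ : ℂ ≃+* ℂ, tr Z (cjS σ U) = sg (T k) σ φ) : SumP Z := by
  classical
  intro I _ U m N hU hN
  have h3 : ∀ i, ∃ x : Option (Σ k, (T k).E →+* ℂ), ∀ σ : ℂ ≃+* ℂ, tr Z (cjS σ (U i)) =
      ∑ y, if x = some y then sg (T y.1) σ y.2 else 0 := by
    intro i
    rcases h1 (U i) (hU i) with h | ⟨k, φ, h⟩
    · exact ⟨none, fun σ => by rw [h σ]; simp⟩
    · refine ⟨some ⟨k, φ⟩, fun σ => ?_⟩
      rw [h σ, Finset.sum_eq_single ⟨k, φ⟩]
      · rw [if_pos rfl]
      · intro y _ hy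
        rw [if_neg]
        intro h4
        exact hy (Option.some.inj h4).symm
      · intro h
        exact absurd (Finset.mem_univ _) h
  choose x hx using h3
  have h4 : ∀ σ : ℂ ≃+* ℂ, ∑ i, m i * tr Z (cjS σ (U i)) =
      ∑ k, ∑ φ, (∑ i, if x i = some ⟨k, φ⟩ then m i else 0) * sg (T k) σ φ := by
    intro σ
    rw [← Fintype.sum_sigma' (fun k φ => (∑ i, if x i = some ⟨k, φ⟩ then m i else 0) *
      sg (T k) σ φ)]
    have h5 : ∀ y : (Σ k, (T k).E →+* ℂ), (∑ i, if x i = some ⟨y.1, y.2⟩ then m i else 0) *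
        sg (T y.1) σ y.2 = ∑ i, m i * if x i = some y then sg (T y.1) σ y.2 else 0 := by
      intro y
      rw [Finset.sum_mul]
      refine Finset.sum_congr rfl fun i _ => ?_
      by_cases h : x i = some y
      · rw [if_pos h, if_pos h]
      · rw [if_neg h, if_neg h, zero_mul, mul_zero]
    rw [Finset.sum_congr rfl fun y _ => h5 y, Finset.sum_comm]
    refine Finset.sum_congr rfl fun i _ => ?_
    rw [hx i σ, Finset.mul_sum]
  obtain ⟨a, -, ha1, ha2⟩ := hT (fun k φ => ∑ i, if x i = some ⟨k, φ⟩ then m i else 0) N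
    (fun k hk => absurd (Set.mem_univ k) hk) fun σ => by
      rw [← h4]
      exact hN σ
  choose W hW1 hW2 hW3 using h2
  refine ⟨Σ y : (Σ k, (T k).E →+* ℂ), Fin (a y.1 y.2), inferInstance,
    fun y => W y.1.1 y.1.2, fun y => ⟨hW1 _ _, hW2 _ _⟩, ?_, fun σ => ?_⟩
  · rw [Fintype.card_sigma]
    simp only [Fintype.card_fin]
    rw [Fintype.sum_sigma]
    exact ha1
  · rw [h4, ← ha2, Fintype.sum_sigma]
    have h5 : ∀ y : (Σ k, (T k).E →+* ℂ), ∑ _t : Fin (a y.1 y.2), tr Z (cjS σ (W y.1 y.2)) =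
        (a y.1 y.2 : ℤ) * sg (T y.1) σ y.2 := by
      intro y
      rw [Finset.sum_const, Finset.card_univ, Fintype.card_fin, nsmul_eq_mul, hW3]
    rw [Finset.sum_congr rfl fun y _ => h5 y, Fintype.sum_sigma]

/-- The criterion. -/
theorem maint (hMULT : S_MULT) (hRATG : S_RATG) (hASM : S_ASMG) (hLOC : S_LOCT)
    (hLINE : S_LINEA) (hMAPS : S_MAPSG) (hALL : S_ALLT) (hZERO : S_ZERO) : S_MAINT := by
  classical
  intro K _ T hT 𝒜
  constructor
  · intro h C hC
    exact hZERO 𝒜 (av C) (h (av C) (cls_av hC))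
  · intro h
    refine hASM hMULT hRATG 𝒜 (ClsT T) (fun X Y f hf hi hY => hY.sub hf hi)
      (fun X Y hX hY => hX.prod hY) (hALL T 𝒜 h) (av ⟨K, T⟩) (cls_av fun k => ⟨k, rfl⟩)
      (fun {g Z} h f hf hfi hQ n j => ?_)
    obtain ⟨h1, h2, h3⟩ := hLOC T h hQ
    refine hMAPS h h1 h2 (sumP_of hT h3 fun k φ => ?_) n j
    obtain ⟨f', hf', hfi'⟩ := exists_incl ⟨K, T⟩ k
    obtain ⟨U, hU1, hU2, hU3⟩ := hLINE h (T k) φ (f.comp f') (hom_comp hf' hf) (hfi.comp hfi')
    refine ⟨U, hU1, hU2, fun σ => ?_⟩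
    unfold sg
    by_cases h5 : (σ : ℂ →+* ℂ).comp φ ∈ (T k).Φ
    · rw [if_pos h5]
      exact (hU3 σ).1 h5
    · rw [if_neg h5]
      exact (hU3 σ).2 h5

end

end Pool.Agent.N178.HX
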