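import Mathlib
import Pool.Agent.N178.HX.StmF

/-!
# Families of CM types of small dimension: statements
-/

set_option linter.unusedSectionVars false

namespace Pool.Agent.N178.HX

open Finset Matrix Module NumberField Pool.Agent.W437.HC Pool.Agent.W437.HD Pool.Agent.Y90
open Pool.Agent.R915 Pool.Agent.N178.HW
open Pool.Agent.H204R3.CM (IsHodge IsCMType)
open Pool.Agent.W547.KB (CMPair CMAV single)
open Pool.Agent.W547.LN (SameType)
open Pool.Agent.N830.HC (HasCMultIn AllowedIn Allowed Frame av)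

noncomputable section

/-- The sums property for a set `F` of functions: each integral combination of elements of `F` with
absolute values at most `N` is a sum of at most `N` elements of `F`. -/
def SPF {G : Type} (F : Set (G → ℤ)) : Prop :=
  ∀ f ∈ AddSubgroup.closure F, ∀ N : ℕ, (∀ σ, |f σ| ≤ N) →
    ∃ l : List (G → ℤ), (∀ g ∈ l, g ∈ F) ∧ l.length ≤ N ∧ l.sum = f

/-- The functions of the CM types in the block `B`. -/
def Fn {K : Type} (T : K → CMPair) (B : Set K) : Set ((ℂ ≃+* ℂ) → ℤ) :=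
  {f | ∃ k ∈ B, ∃ φ : (T k).E →+* ℂ, f = fun σ => sg (T k) σ φ}

/-- The two forms of the sums property are equivalent. -/
def S_SPF : Prop := ∀ {K : Type} [Fintype K] (T : K → CMPair) (B : Set K), SP T B ↔ SPF (Fn T B)

/-- The functions `f i`, `-f i`. -/
def pm {G : Type} {n : ℕ} (f : Fin n → G → ℤ) : Set (G → ℤ) := {g | ∃ i, g = f i ∨ g = -f i}

/-- Three functions with values `1`, `-1`, which are odd for an involution-like map `c`. -/
def S_L3 : Prop := ∀ {G : Type} [Nonempty G] (c : G → G) (f : Fin 3 → G → ℤ),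
  (∀ i σ, f i σ = 1 ∨ f i σ = -1) → (∀ i σ, f i (c σ) = -f i σ) →
  SPF (pm f) ∨ (∃ s : Fin 3 → ℤ, (∀ i, s i = 1 ∨ s i = -1) ∧
    (∀ σ, ∑ i, s i * f i σ = 1 ∨ ∑ i, s i * f i σ = -1) ∧
    (∀ t : Fin 3 → ℤ, (∀ i, t i = 1 ∨ t i = -1) →
      (∀ σ, ∑ i, t i * f i σ = 1 ∨ ∑ i, t i * f i σ = -1) → t = s ∨ t = -s) ∧
    (∀ i j, i ≠ j → f i ≠ f j ∧ f i ≠ -f j) ∧
    SPF (pm f ∪ {fun σ => ∑ i, s i * f i σ, fun σ => -∑ i, s i * f i σ}))

/-- A character with values `1`, `-1` of the group of automorphisms of `ℂ` which depends only on the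
action on finitely many complex embeddings of number fields and which is `-1` for the complex
conjugation is given by an imaginary quadratic field. -/
def S_KCH : Prop := ∀ {K : Type} [Finite K] (E : K → Type) [∀ k, Field (E k)]
  [∀ k, NumberField (E k)] (κ : (ℂ ≃+* ℂ) → ℤ), (∀ σ, κ σ = 1 ∨ κ σ = -1) →
  (∀ σ τ : ℂ ≃+* ℂ, κ (τ.trans σ) = κ σ * κ τ) →
  (∀ σ : ℂ ≃+* ℂ, (∀ x, σ x = (starRingEnd ℂ) x) → κ σ = -1) →
  (∀ σ τ : ℂ ≃+* ℂ, (∀ k (φ : E k →+* ℂ), (σ : ℂ →+* ℂ).comp φ = (τ : ℂ →+* ℂ).comp φ) →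
    κ σ = κ τ) →
  ∃ P : CMPair, finrank ℚ P.E = 2 ∧ ∃ φ, ∀ σ, sg P σ φ = κ σ

/-- Blocks of dimension at most three have the sums property, if necessary after adding an
elliptic curve. -/
def S_LOW : Prop := ∀ {K : Type} [Fintype K] [DecidableEq K] (T : K → CMPair) (B : Finset K),
  ∑ k ∈ B, finrank ℚ (T k).E ≤ 6 → SPF (Fn T B) ∨ ∃ P : CMPair, finrank ℚ P.E = 2 ∧
    SPF (Fn T B ∪ Fn (fun _ : Unit => P) Set.univ) ∧
    ∀ σ τ : ℂ ≃+* ℂ, (∀ k ∈ B, ∀ φ : (T k).E →+* ℂ,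
      (σ : ℂ →+* ℂ).comp φ = (τ : ℂ →+* ℂ).comp φ) →
      ∀ φ : P.E →+* ℂ, (σ : ℂ →+* ℂ).comp φ = (τ : ℂ →+* ℂ).comp φ

/-- The condition on a block: all CM types of the fields are conjugate, or the CM types are all CM
types of a Galois CM field of degree at most six, or the total dimension is at most three. -/
def BlkOK {K : Type} [Fintype K] (T : K → CMPair) (B : Set K) : Prop :=
  SignB T B ∨ (∃ (L : Type) (_ : Field L) (_ : NumberField L) (_ : IsCMField L),
    GalB T B L ∧ finrank ℚ L ≤ 6) ∨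
    ∃ F : Finset K, (∀ k, k ∈ F ↔ k ∈ B) ∧ ∑ k ∈ F, finrank ℚ (T k).E ≤ 6

/-- Families in independent blocks are contained in families with the sums property for which the
Hodge conjecture holds. -/
def S_COV : Prop := ∀ {K J : Type} [Fintype K] (T : K → CMPair) (b : K → J), IndB T b →
  (∀ j, BlkOK T {k | b k = j}) →
  ∃ (K' : Type) (_ : Fintype K') (T' : K' → CMPair), (∀ k, ∃ k', T' k' = T k) ∧
    SP T' Set.univ ∧ ∀ (𝒜 : Sys) (C : CMAV), (∀ i, ∃ k', C.factor i = T' k') → 𝒜.AllHodge (av C)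

/-- The powers of abelian varieties of dimension at most three. -/
def S_POW : Prop := ∀ A : AV, finrank ℚ A.H ≤ 6 → ∃ (K : Type) (_ : Fintype K) (T : K → CMPair),
  ∑ k, finrank ℚ (T k).E ≤ 6 ∧ ∀ X : AV, (∀ Y, IsFactor Y X → IsFactor Y A) → ClsT T X

/-- The quadratic fields which act with different multiplicities on a simple abelian variety without
complex multiplication are all the same. -/
def S_UNB : Prop := ∀ Y : AV, IsSimple Y → ¬ HasCMult Y → (finrank ℚ Y.H ≤ 6 ∨ QuadMult Y ∨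
  RealMult Y ∨ FiveDim Y ∨ FullHodge Y) → ∀ d d' : ℚ, Unbalanced Y d → Unbalanced Y d' →
  ∃ r : ℚ, d' = d * r ^ 2

end

end Pool.Agent.N178.HX
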