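import Mathlib
import Pool.Agent.N178.HX.MainT
import Pool.Agent.N178.HX.StmG

/-!
# The final form of the results, from the parts
-/

set_option linter.unusedSectionVars false

namespace Pool.Agent.N178.HX

open Finset Matrix Module NumberField Pool.Agent.W437.HC Pool.Agent.W437.HD Pool.Agent.Y90
open Pool.Agent.R915 Pool.Agent.N178.HW
open Pool.Agent.H204R3.CM (IsHodge IsCMType)
open Pool.Agent.W546.GHC (IsHodgeSubstructure LevelLE)
open Pool.Agent.W547.KB (CMPair CMAV single)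
open Pool.Agent.W547.LN (SameType)
open Pool.Agent.N830.HC (HasCMultIn AllowedIn Allowed Frame av HasCMultIn.cm inj_of_simple
  cm_of_factor)

noncomputable section

/-- The result for independent blocks. -/
theorem uncond (hM : S_MAINT) (hSPI : S_SPI) (hSPG : S_SPG) (hSPB : S_SPB) (hHCB : S_HCB)
    {K J : Type} [Fintype K] (T : K → CMPair) (b : K → J) (hb : IndB T b)
    (hj : ∀ j, SignB T {k | b k = j} ∨ ∃ (L : Type) (_ : Field L) (_ : NumberField L)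
      (_ : IsCMField L), GalB T {k | b k = j} L ∧ finrank ℚ L ≤ 6) (𝒜 : Sys) (X : AV)
    (hX : ClsT T X) : GHC 𝒜 X := by
  refine (hM T (hSPB T b hb fun j => ?_) 𝒜).2 (hHCB T b hb hj 𝒜) X hX
  rcases hj j with h | ⟨L, _, _, _, h, -⟩
  · exact hSPI T _ h
  · exact hSPG T _ L h

/-- The result for independent blocks, with blocks of dimension at most three. -/
theorem uncond' (hM : S_MAINT) (hCOV : S_COV) {K J : Type} [Fintype K] (T : K → CMPair)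
    (b : K → J) (hb : IndB T b) (hj : ∀ j, BlkOK T {k | b k = j}) (𝒜 : Sys) (X : AV)
    (hX : ClsT T X) : GHC 𝒜 X := by
  obtain ⟨K', _, T', h1, h2, h3⟩ := hCOV T b hb hj
  refine (hM T' h2 𝒜).2 (h3 𝒜) X fun Y hY => ?_
  rcases hX Y hY with ⟨k, hk⟩ | ⟨h4, h5, h6⟩
  · obtain ⟨k', hk'⟩ := h1 k
    exact Or.inl ⟨k', by rw [hk']; exact hk⟩
  · refine Or.inr ⟨h4, h5, fun d hd => ?_⟩
    obtain ⟨h7, k, E, h8⟩ := h6 d hd
    obtain ⟨k', hk'⟩ := h1 k
    exact ⟨h7, k', E, by rw [hk']; exact h8⟩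

/-- Powers of abelian varieties of dimension at most three. -/
theorem pow3 (hM : S_MAINT) (hCOV : S_COV) (hPOW : S_POW) (A X : AV) (hA : finrank ℚ A.H ≤ 6)
    (hX : ∀ Y, IsFactor Y X → IsFactor Y A) (𝒜 : Sys) : GHC 𝒜 X := by
  obtain ⟨K, _, T, hT, h⟩ := hPOW A hA
  refine uncond' hM hCOV T (fun _ : K => ()) (fun τ => ⟨τ (), fun _ _ => rfl⟩)
    (fun j => Or.inr (Or.inr ⟨Finset.univ, fun k => ?_, hT⟩)) 𝒜 X (h X hX)
  exact ⟨fun _ => rfl, fun _ => Finset.mem_univ k⟩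

/-- All CM types of a CM field. -/
def allT (L : Type) [Field L] [NumberField L] [IsCMField L] :
    {Φ : Set (L →+* ℂ) // IsCMType Φ} → CMPair := fun Φ => ⟨L, Φ.1, Φ.2⟩

theorem cls_allT (hTOT : S_TOT) {L : Type} [Field L] [NumberField L] [IsCMField L] {X : AV}
    (hX : Cls (fun _ : Unit => L) X) : ClsT (allT L) X := by
  obtain ⟨h1, h2⟩ := hTOT L
  intro Y hY
  rcases hX Y hY with ⟨_, h⟩ | ⟨h3, h4, h5⟩
  · obtain ⟨Φ, hΦ, h6⟩ := h1 Y hY.1 h
    exact Or.inl ⟨⟨Φ, hΦ⟩, h6⟩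
  · refine Or.inr ⟨h3, h4, fun d hd => ?_⟩
    obtain ⟨h6, _, h7⟩ := h5 d hd
    obtain ⟨Φ, hΦ, E, h8⟩ := h2 d hd.1 h7
    exact ⟨h6, ⟨Φ, hΦ⟩, E, h8⟩

theorem galB (L : Type) [Field L] [NumberField L] [IsCMField L] [IsGalois ℚ L] :
    GalB (allT L) Set.univ L := by
  refine ⟨inferInstance, fun _ _ => ⟨RingHom.id L⟩, fun Φ hΦ => ⟨⟨Φ, hΦ⟩, trivial,
    RingEquiv.refl L, fun ψ => Iff.rfl⟩⟩

/-- The result for one field, relative to the Hodge conjecture. -/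
theorem one (hM : S_MAINT) (hSPG : S_SPG) (hTOT : S_TOT) {L : Type} [Field L] [NumberField L]
    [IsCMField L] [IsGalois ℚ L] (𝒜 : Sys)
    (h : ∀ C : CMAV, (∀ i, ∃ Φ, C.factor i = allT L Φ) → 𝒜.AllHodge (av C)) (X : AV)
    (hX : Cls (fun _ : Unit => L) X) : GHC 𝒜 X := by
  classical
  exact (hM (allT L) (hSPG (allT L) _ L (galB L)) 𝒜).2 h X (cls_allT hTOT hX)

theorem cls_of_cm {L : Type} [Field L] {C : CMAV} (h : ∀ i, Nonempty ((C.factor i).E →+* L)) :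
    Cls (fun _ : Unit => L) (av C) := fun Y hY => by
  obtain ⟨i, hi⟩ := cm_of_factor C Y hY
  obtain ⟨ι⟩ := h i
  exact Or.inl ⟨(), hi.map ι⟩

/-- The result for one field and the classes of degree four. -/
theorem frame_iff (hM : S_MAINT) (hSPG : S_SPG) (hTOT : S_TOT) (hZERO : S_ZERO) {B : CMPair}
    (F : Frame B) (𝒜 : Sys) :
    (∀ X : AV, Cls (fun _ : Unit => F.L) X → GHC 𝒜 X) ↔ F.In 𝒜 := by
  constructor
  · intro h
    rw [F.in_iff]
    intro ι Φ hq hp f hf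
    refine hZERO 𝒜 _ (h (av (Pool.Agent.W547.KB.threeB B F.L Φ hq.type)) (cls_of_cm fun i => ?_))
      (Fin 4) f (Pool.Agent.W547.KB.hodge_weil ι Φ hq.type F.j hq.meet hq.meet' 1 f hf)
    rcases i with i | i
    · exact ⟨RingHom.id _⟩
    · exact ⟨ι⟩
  · intro h
    refine one hM hSPG hTOT 𝒜 fun C hC => ?_
    have h1 := (Pool.Agent.N830.HC.reduction F.j F.j' F.emb F.ne 𝒜).2 ((F.in_iff 𝒜).1 h)
    refine h1 (av C) fun Y hY => Or.inl ?_
    obtain ⟨i, hi⟩ := cm_of_factor C Y hY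
    obtain ⟨Φ, hΦ⟩ := hC i
    rw [hΦ] at hi
    exact hi

/-- The simple factors of the theorem. -/
def Gd (X : AV) : Prop :=
  ∀ Y, IsFactor Y X → (finrank ℚ Y.H ≤ 6 ∨ HasCMult Y ∨ QuadMult Y ∨ RealMult Y ∨
    FiveDim Y ∨ FullHodge Y) ∧ (¬ HasCMult Y → finrank ℚ Y.H = 8 → ∀ d, ¬ Unbalanced Y d)

/-- The general reduction. -/
theorem all_iff' (hM : S_MAINT) (hSPG : S_SPG) (hTOT : S_TOT) (hZERO : S_ZERO) (hEXL : S_EXL)
    (𝒜 : Sys) : (∀ X : AV, Gd X → GHC 𝒜 X) ↔ ∀ C : CMAV, 𝒜.AllHodge (av C) := by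
  constructor
  · intro h C
    refine hZERO 𝒜 _ (h (av C) fun Y hY => ?_)
    obtain ⟨i, hi⟩ := cm_of_factor C Y hY
    exact ⟨Or.inr (Or.inl hi.cm), fun h1 => absurd hi.cm h1⟩
  · intro h X hX
    obtain ⟨L, _, _, _, _, hL⟩ := hEXL X (fun Y hY => (hX Y hY).1) fun Y hY => (hX Y hY).2
    exact one hM hSPG hTOT 𝒜 (fun C _ => h C) X hL

end

end Pool.Agent.N178.HX
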