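import Mathlib
import Pool.Agent.N178.HX.StmG

/-!
# Products of CM types in independent blocks: the product principle for systems of classes
-/

set_option linter.unusedSectionVars false

namespace Pool.Agent.N178.HX

open Finset Matrix Module NumberField Pool.Agent.W437.HC Pool.Agent.W437.HD Pool.Agent.Y90
open Pool.Agent.R915 Pool.Agent.N178.HW
open Pool.Agent.H204R3.CM (IsHodge IsCMType)
open Pool.Agent.W547.KB (CMPair CMAV single)
open Pool.Agent.W547.LN (SameType)
open Pool.Agent.N830.HC (HasCMultIn AllowedIn Allowed Frame av)

noncomputable section

/-- The product principle: if the blocks are independent and a system of classes contains the Hodge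
classes on the products of factors of each single block, then it contains the Hodge classes on all
products of the factors. -/
def S_PROD : Prop := ∀ {K J : Type} [Fintype K] (T : K → CMPair) (b : K → J), IndB T b →
  ∀ 𝒜 : Sys, (∀ j, ∀ C : CMAV, (∀ i, ∃ k, b k = j ∧ C.factor i = T k) → 𝒜.AllHodge (av C)) →
    ∀ C : CMAV, (∀ i, ∃ k, C.factor i = T k) → 𝒜.AllHodge (av C)

end

end Pool.Agent.N178.HX
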