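import Mathlib
import Pool.Agent.N178.HX.StmH
import Pool.Agent.N178.HX.Final
import Pool.Agent.N492.HX.COV

/-!
# Families of CM types in independent blocks, with arbitrary Galois CM fields

(The construction of the family with the elliptic curves is the one of `Pool.Agent.N492.HX.COV`.)
-/

set_option linter.unusedSectionVars false

namespace Pool.Agent.N178.HX.CovH

open Finset Module NumberField Pool.Agent.N178.HX Pool.Agent.N492.HX Pool.Agent.R915
open Pool.Agent.Y90 Pool.Agent.N178.HW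
open Pool.Agent.H204R3.CM (IsCMType)
open Pool.Agent.W547.KB (CMPair CMAV single)
open Pool.Agent.W547.LN (SameType)
open Pool.Agent.N830.HC (Frame av)

noncomputable section

/-- The condition on a block: all CM types of the fields are conjugate, or the CM types are all CM
types of a Galois CM field, or the total dimension is at most three. -/
def BlkOKH {K : Type} (T : K → CMPair) (B : Set K) : Prop :=
  SignB T B ∨ (∃ (L : Type) (_ : Field L) (_ : NumberField L) (_ : IsCMField L),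
    GalB T B L) ∨
    ∃ F : Finset K, (∀ k, k ∈ F ↔ k ∈ B) ∧ ∑ k ∈ F, finrank ℚ (T k).E ≤ 6

/-! ### The extended family -/

/-- the blocks which do not need an elliptic curve -/
def NoP {K J : Type} [Fintype K] (T : K → CMPair) (b : K → J) (j : J) : Prop :=
  SignB T {k | b k = j} ∨ (∃ (L : Type) (_ : Field L) (_ : NumberField L) (_ : IsCMField L),
    GalB T {k | b k = j} L) ∨
    ∃ F : Finset K, (∀ k, k ∈ F ↔ k ∈ {k | b k = j}) ∧ ∑ k ∈ F, finrank ℚ (T k).E ≤ 6 ∧
      SPF (Fn T {k | b k = j})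

/-- the blocks with an elliptic curve -/
def WiP {K J : Type} [Fintype K] (T : K → CMPair) (b : K → J) (j : J) (P : CMPair) : Prop :=
  ∃ F : Finset K, (∀ k, k ∈ F ↔ k ∈ {k | b k = j}) ∧ ∑ k ∈ F, finrank ℚ (T k).E ≤ 6 ∧
    finrank ℚ P.E = 2 ∧
    SPF (Fn T {k | b k = j} ∪ Fn (fun _ : Unit => P) Set.univ) ∧
    ∀ σ τ : ℂ ≃+* ℂ, (∀ k ∈ F, ∀ φ : (T k).E →+* ℂ,
      (σ : ℂ →+* ℂ).comp φ = (τ : ℂ →+* ℂ).comp φ) →
      ∀ φ : P.E →+* ℂ, (σ : ℂ →+* ℂ).comp φ = (τ : ℂ →+* ℂ).comp φ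

theorem wiP_of {K J : Type} [Fintype K] (hLOW : S_LOW) (T : K → CMPair) (b : K → J) (j : J)
    (hj : BlkOKH T {k | b k = j}) (hn : ¬ NoP T b j) : ∃ P, WiP T b j P := by
  classical
  rcases hj with h | h | ⟨F, hF, hd⟩
  · exact absurd (Or.inl h) hn
  · exact absurd (Or.inr (Or.inl h)) hn
  · have e : (↑F : Set K) = {k | b k = j} := Set.ext fun k => (Finset.mem_coe.trans (hF k))
    rcases hLOW T F hd with h | ⟨P, h1, h2, h3⟩
    · rw [e] at h
      exact absurd (Or.inr (Or.inr ⟨F, hF, hd, h⟩)) hn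
    · rw [e] at h2
      exact ⟨P, F, hF, hd, h1, h2, h3⟩

/-- the new indices -/
abbrev K1 {K J : Type} [Fintype K] (T : K → CMPair) (b : K → J) : Type := {j : J // ¬ NoP T b j}

theorem exists_k {K J : Type} [Fintype K] (T : K → CMPair) (b : K → J) {j : J} (hj : ¬ NoP T b j) :
    ∃ k, b k = j := by
  by_contra hcon
  push Not at hcon
  refine hj (Or.inl fun Ψ _ => ⟨RingEquiv.refl ℂ, fun k hk => absurd hk (hcon k)⟩)

theorem finK1 {K J : Type} [Fintype K] (T : K → CMPair) (b : K → J) : Finite (K1 T b) := by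
  refine Finite.of_injective (fun j : K1 T b => (exists_k T b j.2).choose) fun j j' h => ?_
  have h1 := (exists_k T b j.2).choose_spec
  have h2 := (exists_k T b j'.2).choose_spec
  refine Subtype.ext ?_
  rw [← h1, ← h2]
  exact congrArg b h

section ext
variable {K J : Type} [Fintype K] (T : K → CMPair) (b : K → J) (P : K1 T b → CMPair)

/-- the extended family -/
def T1 : K ⊕ K1 T b → CMPair := Sum.elim T P

/-- the blocks of the extended family -/
def b1 : K ⊕ K1 T b → J := Sum.elim b Subtype.val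

theorem ind1 (hI : IndB T b) (hP : ∀ j : K1 T b, WiP T b j (P j)) : IndB (T1 T b P) (b1 T b) := by
  intro τ
  obtain ⟨σ, hσ⟩ := hI τ
  refine ⟨σ, fun k => ?_⟩
  rcases k with k | j
  · exact hσ k
  · intro φ
    obtain ⟨F, hF, -, -, -, h⟩ := hP j
    refine h σ (τ j) (fun k hk φ => ?_) φ
    have h1 : b k = j := (hF k).1 hk
    rw [← h1]
    exact hσ k φ

theorem Fn_no {j : J} (hj : NoP T b j) :
    Fn (T1 T b P) {k | b1 T b k = j} = Fn T {k | b k = j} := by
  ext f
  constructor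
  · rintro ⟨k, hk, φ, rfl⟩
    rcases k with k | j'
    · exact ⟨k, hk, φ, rfl⟩
    · have h1 : (j' : J) = j := hk
      exact absurd (h1 ▸ hj) j'.2
  · rintro ⟨k, hk, φ, rfl⟩
    exact ⟨Sum.inl k, hk, φ, rfl⟩

theorem Fn_wi (j : K1 T b) : Fn (T1 T b P) {k | b1 T b k = j} =
    Fn T {k | b k = j} ∪ Fn (fun _ : Unit => P j) Set.univ := by
  ext f
  rw [Set.mem_union]
  constructor
  · rintro ⟨k, hk, φ, rfl⟩
    rcases k with k | j'
    · exact Or.inl ⟨k, hk, φ, rfl⟩
    · have h1 : j' = j := Subtype.ext hk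
      subst h1
      exact Or.inr ⟨(), Set.mem_univ _, φ, rfl⟩
  · rintro (⟨k, hk, φ, rfl⟩ | ⟨-, -, φ, rfl⟩)
    · exact ⟨Sum.inl k, hk, φ, rfl⟩
    · exact ⟨Sum.inr j, rfl, φ, rfl⟩

theorem sp1 [Fintype (K1 T b)] (hSPF : S_SPF) (hSPI : S_SPI) (hSPG : S_SPG)
    (hP : ∀ j : K1 T b, WiP T b j (P j)) (j : J) : SP (T1 T b P) {k | b1 T b k = j} := by
  rw [hSPF]
  by_cases hj : NoP T b j
  · rw [Fn_no T b P hj]
    rcases hj with h | ⟨L, i1, i2, i3, h⟩ | ⟨-, -, -, h⟩
    · exact (hSPF _ _).1 (hSPI T _ h)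
    · exact (hSPF _ _).1 (hSPG T _ L h)
    · exact h
  · have h := Fn_wi T b P ⟨j, hj⟩
    have h2 : Fn (T1 T b P) {k | b1 T b k = j} =
      Fn T {k | b k = j} ∪ Fn (fun _ : Unit => P ⟨j, hj⟩) Set.univ := h
    rw [h2]
    obtain ⟨-, -, -, -, h3, -⟩ := hP ⟨j, hj⟩
    exact h3

end ext


/-! ### The Hodge conjecture for the blocks -/

section blk
variable {K J : Type} [Fintype K] (T : K → CMPair) (b : K → J) (P : K1 T b → CMPair)
  [Fintype (K1 T b)]

open Pool.Agent.W547.UB (GoodBlock IndependentBlocks)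

/-- the dimension of a block -/
theorem dim_blk (j : J) (F : Finset K) (hF : ∀ k, k ∈ F ↔ k ∈ {k | b k = j})
    (h6 : ∑ k ∈ F, finrank ℚ (T k).E ≤ 6) (hn : ∀ j' : K1 T b, (j' : J) = j →
      finrank ℚ (P j').E = 2) [Fintype {k // b1 T b k = j}] :
    finrank ℚ (Pool.Agent.W547.KB.CMAV.H1 ⟨{k // b1 T b k = j}, fun k => T1 T b P k⟩) ≤ 10 := by
  classical
  have h1 : finrank ℚ (Pool.Agent.W547.KB.CMAV.H1 ⟨{k // b1 T b k = j}, fun k => T1 T b P k⟩) =
      ∑ k : {k // b1 T b k = j}, finrank ℚ (T1 T b P k).E := finrank_pi_fintype ℚ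
  have h2 : ∑ k : {k // b1 T b k = j}, finrank ℚ (T1 T b P k).E =
      ∑ k ∈ univ.filter (fun k => b1 T b k = j), finrank ℚ (T1 T b P k).E :=
    (Finset.sum_subtype (univ.filter fun k => b1 T b k = j) (fun x => by
      rw [mem_filter]
      exact ⟨fun h => h.2, fun h => ⟨mem_univ _, h⟩⟩) fun k => finrank ℚ (T1 T b P k).E).symm
  have h3 : ∑ k ∈ univ.filter (fun k : K => b k = j), finrank ℚ (T k).E =
      ∑ k ∈ F, finrank ℚ (T k).E := by
    refine sum_congr ?_ fun _ _ => rfl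
    ext k
    rw [mem_filter, hF]
    exact ⟨fun h => h.2, fun h => ⟨mem_univ _, h⟩⟩
  have h4 : ∑ j' ∈ univ.filter (fun j' : K1 T b => (j' : J) = j), finrank ℚ (P j').E ≤ 2 := by
    have h5 : (univ.filter (fun j' : K1 T b => (j' : J) = j)).card ≤ 1 := by
      rw [card_le_one]
      intro x hx y hy
      exact Subtype.ext ((mem_filter.1 hx).2.trans (mem_filter.1 hy).2.symm)
    calc ∑ j' ∈ univ.filter (fun j' : K1 T b => (j' : J) = j), finrank ℚ (P j').E
        = ∑ j' ∈ univ.filter (fun j' : K1 T b => (j' : J) = j), 2 :=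
          sum_congr rfl fun j' hj' => hn j' (mem_filter.1 hj').2
      _ = (univ.filter (fun j' : K1 T b => (j' : J) = j)).card * 2 := by
          rw [sum_const, smul_eq_mul]
      _ ≤ 2 := by omega
  rw [h1, h2, sum_filter, Fintype.sum_sum_type, ← sum_filter, ← sum_filter]
  have h6' : ∑ k ∈ univ.filter (fun k : K => b1 T b (Sum.inl k) = j), finrank ℚ (T1 T b P (Sum.inl k)).E ≤ 6 :=
    h3.trans_le h6
  have h7 : ∑ j' ∈ univ.filter (fun j' : K1 T b => b1 T b (Sum.inr j') = j),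
    finrank ℚ (T1 T b P (Sum.inr j')).E ≤ 2 := h4
  omega

/-- CM fields have CM types. -/
theorem exists_cmType (L : Type) [Field L] [NumberField L] [IsCMField L] :
    ∃ Φ : Set (L →+* ℂ), IsCMType Φ := by
  classical
  have hne : ∀ φ : L →+* ℂ, ComplexEmbedding.conjugate φ ≠ φ := by
    intro φ hφ
    have h1 : InfinitePlace.IsReal (InfinitePlace.mk φ) := InfinitePlace.isReal_mk_iff.2 hφ
    exact (InfinitePlace.not_isReal_iff_isComplex.2 (IsTotallyComplex.isComplex _)) h1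
  let e := Fintype.equivFin (L →+* ℂ)
  refine ⟨{φ | e φ < e (ComplexEmbedding.conjugate φ)}, fun φ => ?_⟩
  rw [Set.mem_ofPred_eq, Set.mem_ofPred_eq, conj_conj, not_lt]
  constructor
  · intro h
    exact h.le
  · intro h
    exact lt_of_le_of_ne h fun h' => hne φ (e.injective h').symm

/-- Isomorphic CM types have the same simple factors. -/
theorem factor_sameType {A B : CMPair} (h : SameType A B) {Y : AV}
    (hY : IsFactor Y (av (single A))) : IsFactor Y (av (single B)) := by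
  obtain ⟨e, he⟩ := h
  let f : (single A).H1 →ₗ[ℚ] (single B).H1 :=
    { toFun := fun v _ => e (v ())
      map_add' := fun u v => by
        funext _
        exact map_add e _ _
      map_smul' := fun c v => by
        funext _
        exact map_rat_smul e c (v ()) }
  let Ψ : (single A).Tan →ₗ[ℂ] (single B).Tan :=
    { toFun := fun u _ ψ => u () ⟨ψ.1.comp (e : A.E →+* B.E), (he ψ.1).1 ψ.2⟩
      map_add' := fun u v => rfl
      map_smul' := fun c v => rfl }
  have hf : IsHom (av (single A)) (av (single B)) f := ⟨Ψ, fun v => rfl⟩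
  have hfi : Function.Injective f := fun v w hvw => by
    funext u
    exact e.injective (congrFun hvw ())
  obtain ⟨hs, g, hg, hgi⟩ := hY
  exact ⟨hs, f.comp g, hom_comp hg hf, hfi.comp hgi⟩

/-- one good block -/
theorem of_good {C : CMAV} (h : GoodBlock C Set.univ) (𝒜 : Sys) : 𝒜.AllHodge (av C) := by
  have hb : IndependentBlocks C (fun _ : C.I => ()) :=
    ⟨fun _ => by
      have e : {i : C.I | (fun _ : C.I => ()) i = ()} = Set.univ := by
        ext i
        simp
      rw [e]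
      exact h, fun _ => ⟨(starRingAut : ℂ ≃+* ℂ), fun i φ => ⟨fun _ => by
        ext x
        rfl, fun h => absurd rfl h⟩⟩⟩
  intro κ _ f hf
  have h1 := (Pool.Agent.W547.UB.isHodge_iff_ring_blocks C _ hb f).1 hf
  have h2 := Pool.Agent.R915.ring_alg 𝒜 h1 (Pool.Agent.N830.HC.av C) LinearMap.id
    LinearMap.id (fun v => rfl)
  refine Eq.mp (congrArg (𝒜.A (Pool.Agent.N830.HC.av C) κ) ?_) h2
  ext v
  rfl

/-- The Hodge conjecture for one block. -/
theorem hc_blk (hP : ∀ j : K1 T b, WiP T b j (P j)) (𝒜 : Sys)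
    (hF : ∀ j (B : CMPair) (F : Frame B), 6 < finrank ℚ F.L → GalB T {k | b k = j} F.L → F.In 𝒜)
    (j : J) (C : CMAV) (hC : ∀ i, ∃ k, b1 T b k = j ∧ C.factor i = T1 T b P k) :
    𝒜.AllHodge (av C) := by
  classical
  choose q hqj hq using hC
  have hf : ∀ F : Finset K, (∀ k, k ∈ F ↔ k ∈ {k | b k = j}) →
      ∑ k ∈ F, finrank ℚ (T k).E ≤ 6 → 𝒜.AllHodge (av C) := by
    intro F hF h6
    refine of_good (.five ⟨{k // b1 T b k = j}, fun k => T1 T b P k⟩ ?_ fun i _ => ⟨⟨q i, hqj i⟩,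
      sameType_of_eq (hq i)⟩) 𝒜
    exact dim_blk T b P j F hF h6 fun j' hj' => by
      obtain ⟨-, -, -, h, -⟩ := hP j'
      exact h
  by_cases hj : NoP T b j
  · have hin : ∀ i, ∃ k, b k = j ∧ C.factor i = T k := by
      intro i
      have h1 := hq i
      have hi := hqj i
      rcases h : q i with k | j'
      · rw [h] at h1 hi
        exact ⟨k, hi, h1⟩
      · rw [h] at hi
        have h2 : (j' : J) = j := hi
        exact absurd (h2 ▸ hj) j'.2
    rcases hj with h | ⟨L, i1, i2, i3, h⟩ | ⟨F, hF, h6, -⟩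
    · refine of_good (.nondegenerate ⟨{k // b k = j}, fun k => T k⟩ (nondeg T b j h)
        fun i _ => ?_) 𝒜
      obtain ⟨k, hk, h1⟩ := hin i
      exact ⟨⟨k, hk⟩, sameType_of_eq h1⟩
    · obtain ⟨h1, h2, h3⟩ := h
      have h4 : ∀ i, Nonempty ((C.factor i).E →+* L) := by
        intro i
        obtain ⟨k, hk, h5⟩ := hin i
        rw [h5]
        exact h2 k hk
      rcases Nat.lt_or_ge 6 (finrank ℚ L) with h6 | h6
      · -- a frame
        let j0 : L →+* ℂ := Classical.choice inferInstance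
        obtain ⟨Φ, hΦ⟩ : ∃ Φ : Set (L →+* ℂ), IsCMType Φ := exists_cmType L
        let B : CMPair := ⟨L, Φ, hΦ⟩
        have hne : j0 ≠ ComplexEmbedding.conjugate j0 := by
          intro h7
          have h8 := hΦ j0
          rw [← h7] at h8
          tauto
        let F : Frame B := ⟨L, RingHom.id L, j0, j0, hne⟩
        have h7 : F.In 𝒜 := hF j B F h6 ⟨h1, h2, h3⟩
        exact Pool.Agent.N830.HC.all_cm 𝒜 (B := B) F.emb F.ne ((F.in_iff 𝒜).1 h7) C h4
      · have h5 : ∀ i, finrank ℚ (C.factor i).E ≤ 6 ∧ IsGalois ℚ (C.factor i).E := by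
          intro i
          obtain ⟨f⟩ := h4 i
          exact sub_gal f h6
        exact of_good (.small (fun i _ => (h5 i).1) fun i _ k _ _ => Or.inl (h5 i).2) 𝒜
    · exact hf F hF h6
  · obtain ⟨F, hF, h6, -⟩ := hP ⟨j, hj⟩
    exact hf F hF h6

end blk

/-! ### The theorem -/

/-- Families in independent blocks are contained in families with the sums property for which the
Hodge conjecture is equivalent to the conditions for the Galois CM fields. -/
theorem covH (hPROD : S_PROD) (hSPF : S_SPF) (hLOW : S_LOW) (hSPI : S_SPI) (hSPG : S_SPG)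
    (hSPB : S_SPB) {K J : Type} [Fintype K] (T : K → CMPair) (b : K → J) (hI : IndB T b)
    (hOK : ∀ j, BlkOKH T {k | b k = j}) :
    ∃ (K' : Type) (_ : Fintype K') (T' : K' → CMPair), (∀ k, ∃ k', T' k' = T k) ∧
      SP T' Set.univ ∧ ∀ 𝒜 : Sys, (∀ j (B : CMPair) (F : Frame B), 6 < finrank ℚ F.L →
        GalB T {k | b k = j} F.L → F.In 𝒜) →
        ∀ C : CMAV, (∀ i, ∃ k', C.factor i = T' k') → 𝒜.AllHodge (av C) := by
  classical
  have hfin := finK1 T b
  let _ : Fintype (K1 T b) := Fintype.ofFinite _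
  have hex : ∀ j : K1 T b, ∃ P, WiP T b j P := fun j => wiP_of hLOW T b j (hOK j) j.2
  choose P hP using hex
  have hI' := ind1 T b P hI hP
  refine ⟨K ⊕ K1 T b, inferInstance, T1 T b P, fun k => ⟨Sum.inl k, rfl⟩, ?_, ?_⟩
  · exact hSPB _ (b1 T b) hI' (sp1 T b P hSPF hSPI hSPG hP)
  · intro 𝒜 hF C hC
    exact hPROD (T1 T b P) (b1 T b) hI' 𝒜 (fun j C hC => hc_blk T b P hP 𝒜 hF j C hC) C hC

/-- The main theorem. -/
theorem main_iff (hM : S_MAINT) (hTOT : S_TOT) (hZERO : S_ZERO) (hPROD : S_PROD) (hSPF : S_SPF)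
    (hLOW : S_LOW) (hSPI : S_SPI) (hSPG : S_SPG)
    (hSPB : S_SPB) {K J : Type} [Fintype K] (T : K → CMPair) (b : K → J) (hI : IndB T b)
    (hOK : ∀ j, BlkOKH T {k | b k = j}) (𝒜 : Sys) :
    (∀ X : AV, ClsT T X → GHC 𝒜 X) ↔ ∀ j (B : CMPair) (F : Frame B), 6 < finrank ℚ F.L →
        GalB T {k | b k = j} F.L → F.In 𝒜 := by
  constructor
  · intro h j B F _ hG
    rw [F.in_iff]
    intro ι Φ hq hp f hf
    refine hZERO 𝒜 _ (h (av (Pool.Agent.W547.KB.threeB B F.L Φ hq.type)) fun Y hY => Or.inl ?_)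
      (Fin 4) f (Pool.Agent.W547.KB.hodge_weil ι Φ hq.type F.j hq.meet hq.meet' 1 f hf)
    obtain ⟨i, hi⟩ := Pool.Agent.N830.HC.cm_of_factor _ Y hY
    have hi' : Pool.Agent.N830.HC.HasCMultIn Y F.L := by
      rcases i with i | i
      · exact hi
      · exact hi.map ι
    obtain ⟨Φ', hΦ', h1⟩ := (hTOT F.L).1 Y hY.1 hi'
    obtain ⟨k, -, h2⟩ := hG.2.2 Φ' hΦ'
    exact ⟨k, factor_sameType h2 h1⟩
  · intro h X hX
    obtain ⟨K', _, T', h1, h2, h3⟩ := covH hPROD hSPF hLOW hSPI hSPG hSPB T b hI hOK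
    refine (hM T' h2 𝒜).2 (h3 𝒜 h) X fun Y hY => ?_
    rcases hX Y hY with ⟨k, hk⟩ | ⟨h4, h5, h6⟩
    · obtain ⟨k', hk'⟩ := h1 k
      exact Or.inl ⟨k', by rw [hk']; exact hk⟩
    · refine Or.inr ⟨h4, h5, fun d hd => ?_⟩
      obtain ⟨h7, k, E, h8⟩ := h6 d hd
      obtain ⟨k', hk'⟩ := h1 k
      exact ⟨h7, k', E, by rw [hk']; exact h8⟩

end

end Pool.Agent.N178.HX.CovH
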