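import Mathlib
import Pool.Agent.N178.HX.StmG
import Pool.Agent.N492.HX.COV
import Pool.Agent.H977R3.CM.Aut

/-!
# The sums property for all CM types of a Galois CM field
-/

set_option linter.unusedSectionVars false
set_option linter.unusedVariables false

namespace Pool.Agent.N178.HX.SPG

open Finset Module NumberField Pool.Agent.N178.HX Pool.Agent.N492.HX
open Pool.Agent.H204R3.CM (IsCMType)
open Pool.Agent.W547.KB (CMPair CMAV single)
open Pool.Agent.W547.LN (SameType)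
open ComplexEmbedding (conjugate)

noncomputable section

variable {L : Type} [Field L] [NumberField L] [IsGalois ℚ L]

/-- Embeddings of a Galois field. -/
theorem exists_gal (j ψ : L →+* ℂ) : ∃ g : L ≃ₐ[ℚ] L, j.comp (g : L →+* L) = ψ := by
  have hinj : Function.Injective (fun g : L ≃ₐ[ℚ] L => j.comp (g : L →+* L)) := by
    intro g h hgh
    ext x
    exact j.injective (RingHom.congr_fun hgh x)
  have hfin : Finite (L →+* ℂ) := inferInstance
  have hbij : Function.Bijective (fun g : L ≃ₐ[ℚ] L => j.comp (g : L →+* L)) := by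
    refine Function.Injective.bijective_of_nat_card_le hinj ?_
    rw [IsGalois.card_aut_eq_finrank, Nat.card_eq_fintype_card, Embeddings.card]
  exact hbij.2 ψ

/-- Automorphisms of `ℂ` act transitively on the embeddings. -/
theorem exists_sigma (j ψ : L →+* ℂ) : ∃ σ : ℂ ≃+* ℂ, (σ : ℂ →+* ℂ).comp j = ψ := by
  obtain ⟨g, hg⟩ := exists_gal j ψ
  obtain ⟨σ, hσ⟩ := Pool.Agent.H977R3.CM.exists_aut j (g : L ≃+* L)
  refine ⟨σ, ?_⟩
  rw [← hg]
  ext x
  exact hσ x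

/-- Embeddings of subfields of a Galois field. -/
theorem exists_sub (j : L →+* ℂ) {E : Type} [Field E] [NumberField E] (ι : E →+* L)
    (φ : E →+* ℂ) : ∃ ι' : E →+* L, j.comp ι' = φ := by
  let _ : Algebra E L := ι.toAlgebra
  let _ : Algebra E ℂ := φ.toAlgebra
  have : Algebra.IsAlgebraic E L := by
    have : IsScalarTower ℚ E L := IsScalarTower.of_algebraMap_eq' (Subsingleton.elim _ _)
    exact Algebra.IsAlgebraic.tower_top (K := ℚ) E
  let ψ : L →ₐ[E] ℂ := IsAlgClosed.lift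
  have hψ : (ψ : L →+* ℂ).comp ι = φ := ψ.comp_algebraMap
  obtain ⟨g, hg⟩ := exists_gal j (ψ : L →+* ℂ)
  refine ⟨((g : L →+* L)).comp ι, ?_⟩
  rw [← RingHom.comp_assoc, hg, hψ]

theorem conj_comp {A B : Type} [Field A] [Field B] (ψ : B →+* ℂ) (f : A →+* B) :
    (conjugate ψ).comp f = conjugate (ψ.comp f) := rfl

/-- The functions in the closure. -/
theorem closure_fun {K : Type} (T : K → CMPair) (B : Set K)
    (hB : ∀ k ∈ B, Nonempty ((T k).E →+* L)) (j : L →+* ℂ) {f : (ℂ ≃+* ℂ) → ℤ}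
    (hf : f ∈ AddSubgroup.closure (Fn T B)) :
    ∃ G : (L →+* ℂ) → ℤ, (∀ σ : ℂ ≃+* ℂ, f σ = G ((σ : ℂ →+* ℂ).comp j)) ∧
      (∀ ψ, G (conjugate ψ) = -G ψ) ∧ ∃ ε : ℤ, ∀ ψ, ∃ m : ℤ, G ψ = 2 * m + ε := by
  classical
  induction hf using AddSubgroup.closure_induction with
  | mem f hf =>
    obtain ⟨k, hk, φ, rfl⟩ := hf
    obtain ⟨ι⟩ := hB k hk
    obtain ⟨ι', hι'⟩ := exists_sub j ι φ
    refine ⟨fun ψ => if ψ.comp ι' ∈ (T k).Φ then 1 else -1, fun σ => ?_, fun ψ => ?_, 1,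
      fun ψ => ?_⟩
    · unfold sg
      beta_reduce
      rw [RingHom.comp_assoc, hι']
    · beta_reduce
      rw [conj_comp]
      have h1 := (T k).isCMType (ψ.comp ι')
      by_cases h : ψ.comp ι' ∈ (T k).Φ
      · rw [if_pos h, if_neg (h1.1 h)]
      · rw [if_neg h, if_pos (by by_contra h3; exact h (h1.2 h3)), neg_neg]
    · beta_reduce
      split_ifs
      · exact ⟨0, by norm_num⟩
      · exact ⟨-1, by norm_num⟩
  | zero => exact ⟨fun _ => 0, fun _ => rfl, fun _ => by simp, 0, fun _ => ⟨0, by simp⟩⟩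
  | add f g _ _ hf hg =>
    obtain ⟨F, h1, h2, ε, h3⟩ := hf
    obtain ⟨G, h4, h5, δ, h6⟩ := hg
    refine ⟨fun ψ => F ψ + G ψ, fun σ => ?_, fun ψ => ?_, ε + δ, fun ψ => ?_⟩
    · rw [Pi.add_apply, h1, h4]
    · beta_reduce
      rw [h2, h5]
      ring
    · obtain ⟨m, hm⟩ := h3 ψ
      obtain ⟨m', hm'⟩ := h6 ψ
      exact ⟨m + m', by beta_reduce; rw [hm, hm']; ring⟩
  | neg f _ hf =>
    obtain ⟨F, h1, h2, ε, h3⟩ := hf
    refine ⟨fun ψ => -F ψ, fun σ => ?_, fun ψ => ?_, ε, fun ψ => ?_⟩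
    · rw [Pi.neg_apply, h1]
    · beta_reduce
      rw [h2]
    · obtain ⟨m, hm⟩ := h3 ψ
      exact ⟨-m - ε, by beta_reduce; rw [hm]; ring⟩

/-- The CM type number `t`. -/
def typ (Φ₀ : Set (L →+* ℂ)) (G : (L →+* ℂ) → ℤ) (M : ℕ) (t : ℕ) : Set (L →+* ℂ) :=
  {ψ | (ψ ∈ Φ₀ ∧ 2 * (t : ℤ) < M + G ψ) ∨ (ψ ∉ Φ₀ ∧ ¬ 2 * (t : ℤ) < M - G ψ)}

theorem typ_cm {Φ₀ : Set (L →+* ℂ)} (h0 : IsCMType Φ₀) {G : (L →+* ℂ) → ℤ}
    (hG : ∀ ψ, G (conjugate ψ) = -G ψ) (M t : ℕ) : IsCMType (typ Φ₀ G M t) := by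
  intro ψ
  have h1 := h0 ψ
  unfold typ
  rw [Set.mem_ofPred_eq, Set.mem_ofPred_eq, hG, sub_neg_eq_add]
  by_cases h : ψ ∈ Φ₀
  · have h2 : conjugate ψ ∉ Φ₀ := h1.1 h
    tauto
  · have h2 : conjugate ψ ∈ Φ₀ := by
      by_contra h3
      exact h (h1.2 h3)
    have h3 : (2 * (t : ℤ) < M + -G ψ) ↔ 2 * (t : ℤ) < M - G ψ := by
      rw [sub_eq_add_neg]
    tauto

open Classical in
/-- The sum of the signs. -/
theorem typ_sum {Φ₀ : Set (L →+* ℂ)} {G : (L →+* ℂ) → ℤ} (M : ℕ) (ψ : L →+* ℂ)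
    (h1 : |G ψ| ≤ M) (h2 : ∃ m : ℤ, (M : ℤ) + G ψ = 2 * m) :
    ∑ t ∈ range M, (if ψ ∈ typ Φ₀ G M t then (1 : ℤ) else -1) = G ψ := by
  obtain ⟨m, hm⟩ := h2
  rw [abs_le] at h1
  -- the number of small `t`
  have hc : ∀ c : ℕ, c ≤ M → ∑ t ∈ range M, (if t < c then (1 : ℤ) else -1) = 2 * c - M := by
    intro c hc
    have h3 : ∀ t ∈ range M, (if t < c then (1 : ℤ) else -1) = 2 * (if t < c then 1 else 0) - 1 := by
      intro t _
      split_ifs <;> norm_num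
    rw [sum_congr rfl h3, sum_sub_distrib, ← mul_sum, sum_boole]
    have h4 : (range M).filter (fun t => t < c) = range c := by
      ext t
      rw [mem_filter, mem_range, mem_range]
      omega
    rw [h4, card_range]
    simp
  by_cases h : ψ ∈ Φ₀
  · obtain ⟨c, hc'⟩ : ∃ c : ℕ, (c : ℤ) = m := ⟨m.toNat, by omega⟩
    have h3 : ∀ t ∈ range M, (if ψ ∈ typ Φ₀ G M t then (1 : ℤ) else -1) =
        if t < c then (1 : ℤ) else -1 := by
      intro t _
      refine if_congr ?_ rfl rfl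
      unfold typ
      rw [Set.mem_ofPred_eq]
      constructor
      · rintro (⟨-, h4⟩ | ⟨h4, -⟩)
        · omega
        · exact absurd h h4
      · intro h4
        exact Or.inl ⟨h, by omega⟩
    rw [sum_congr rfl h3, hc c (by omega)]
    omega
  · obtain ⟨c, hc'⟩ : ∃ c : ℕ, (c : ℤ) = M - m := ⟨(M - m).toNat, by omega⟩
    have h3 : ∀ t ∈ range M, (if ψ ∈ typ Φ₀ G M t then (1 : ℤ) else -1) =
        -(if t < c then (1 : ℤ) else -1) := by
      intro t _
      by_cases h4 : t < c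
      · rw [if_pos h4, if_neg]
        unfold typ
        rw [Set.mem_ofPred_eq]
        rintro (⟨h5, -⟩ | ⟨-, h5⟩)
        · exact h h5
        · omega
      · rw [if_neg h4, if_pos, neg_neg]
        unfold typ
        rw [Set.mem_ofPred_eq]
        exact Or.inr ⟨h, by omega⟩
    rw [sum_congr rfl h3, sum_neg_distrib, hc c (by omega)]
    omega

end

/-- CM fields have CM types. -/
theorem exists_cmType (L : Type) [Field L] [NumberField L] [IsCMField L] :
    ∃ Φ : Set (L →+* ℂ), IsCMType Φ := by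
  classical
  have hne : ∀ φ : L →+* ℂ, ComplexEmbedding.conjugate φ ≠ φ := by
    intro φ hφ
    have h1 : InfinitePlace.IsReal (InfinitePlace.mk φ) := InfinitePlace.isReal_mk_iff.2 hφ
    exact (InfinitePlace.not_isReal_iff_isComplex.2 (IsTotallyComplex.isComplex _)) h1
  let e := Fintype.equivFin (L →+* ℂ)
  refine ⟨{φ | e φ < e (ComplexEmbedding.conjugate φ)}, fun φ => ?_⟩
  rw [Set.mem_ofPred_eq, Set.mem_ofPred_eq, conj_conj, not_lt]
  constructor
  · intro h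
    exact h.le
  · intro h
    exact lt_of_le_of_ne h fun h' => hne φ (e.injective h').symm

/-- **The sums property for all CM types of a Galois CM field.** -/
theorem t_SPG : S_SPG := by
  classical
  intro K _ T B L _ _ _ hG
  obtain ⟨hgal, hsub, hall⟩ := hG
  refine (t_SPF T B).2 ?_
  intro f hf N hN
  let j : L →+* ℂ := Classical.choice inferInstance
  obtain ⟨G, h1, h2, ε, h3⟩ := closure_fun T B hsub j hf
  have h4 : ∀ ψ, |G ψ| ≤ N := by
    intro ψ
    obtain ⟨σ, hσ⟩ := exists_sigma j ψ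
    rw [← hσ, ← h1]
    exact hN σ
  -- the right parity
  obtain ⟨M, hM, h5, h6⟩ : ∃ M : ℕ, M ≤ N ∧ (∀ ψ, |G ψ| ≤ M) ∧
      ∀ ψ, ∃ m : ℤ, (M : ℤ) + G ψ = 2 * m := by
    rcases Int.even_or_odd' ((N : ℤ) + ε) with ⟨m, hm | hm⟩
    · refine ⟨N, le_rfl, h4, fun ψ => ?_⟩
      obtain ⟨m', hm'⟩ := h3 ψ
      exact ⟨m + m', by omega⟩
    · have hN1 : 1 ≤ N := by
        by_contra hcon
        have h7 := h4 j
        obtain ⟨m', hm'⟩ := h3 j
        have h8 : N = 0 := by omega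
        rw [h8, Nat.cast_zero, abs_nonpos_iff] at h7
        omega
      refine ⟨N - 1, by omega, fun ψ => ?_, fun ψ => ?_⟩
      · obtain ⟨m', hm'⟩ := h3 ψ
        have h7 := h4 ψ
        rw [abs_le] at h7 ⊢
        omega
      · obtain ⟨m', hm'⟩ := h3 ψ
        exact ⟨m + m', by omega⟩
  obtain ⟨Φ₀, hΦ₀⟩ := exists_cmType L
  -- the summands
  have h7 : ∀ t : ℕ, ∃ g ∈ Fn T B, ∀ σ : ℂ ≃+* ℂ,
      g σ = if (σ : ℂ →+* ℂ).comp j ∈ typ Φ₀ G M t then (1 : ℤ) else -1 := by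
    intro t
    obtain ⟨k, hk, e, he⟩ := hall (typ Φ₀ G M t) (typ_cm hΦ₀ h2 M t)
    refine ⟨fun σ => sg (T k) σ (j.comp (e.symm : (T k).E →+* L)), ⟨k, hk, _, rfl⟩, fun σ => ?_⟩
    unfold sg
    refine if_congr ?_ rfl rfl
    rw [he]
    have h8 : ((σ : ℂ →+* ℂ).comp (j.comp (e.symm : (T k).E →+* L))).comp
        (e : L →+* (T k).E) = (σ : ℂ →+* ℂ).comp j := by
      ext x
      change σ (j (e.symm (e x))) = σ (j x)
      rw [e.symm_apply_apply]
    exact iff_of_eq (congrArg (· ∈ typ Φ₀ G M t) h8)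
  choose g hg hgs using h7
  refine ⟨(List.range M).map g, ?_, ?_, ?_⟩
  · intro x hx
    obtain ⟨t, -, rfl⟩ := List.mem_map.1 hx
    exact hg t
  · rw [List.length_map, List.length_range]
    exact hM
  · funext σ
    have h8 : ((List.range M).map g).sum = ∑ t ∈ range M, g t := rfl
    rw [h8, Finset.sum_apply, sum_congr rfl fun t _ => hgs t σ, typ_sum M _ (h5 _) (h6 _), h1]

end Pool.Agent.N178.HX.SPG
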