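import Mathlib
import Pool.Agent.N178.HX.StmG
import Pool.Agent.N995.Facs
import Pool.Agent.N178.HW.StmC
import Pool.Agent.R915.G4
import Pool.Agent.N830.HC.A3

/-!
# The family of CM types of an abelian variety of dimension at most three
-/

set_option linter.unusedSectionVars false

namespace Pool.Agent.N178.HX.POW

open Finset Matrix Module NumberField Pool.Agent.W437.HC Pool.Agent.W437.HD Pool.Agent.Y90
open Pool.Agent.R915 Pool.Agent.N178.HW Pool.Agent.N178.HX
open Pool.Agent.W547.KB (CMPair CMAV single)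
open Pool.Agent.N830.HC (av exists_type)
open Pool.Agent.N995 (exists_factors)

noncomputable section

/-- Abelian varieties of a given CM type. -/
theorem factor_of_type {Y : AV} (hs : IsSimple Y) {P : CMPair} (h : IsOfType Y P) :
    IsFactor Y (av (single P)) := by
  obtain ⟨e, Ψ, hΨ⟩ := h
  let C : CMAV := single P
  let i : Y.H →ₗ[ℚ] C.H1 :=
    { toFun := fun v => ((fun _ => e v) : C.H1)
      map_add' := fun u v => by
        funext _
        exact map_add e u v
      map_smul' := fun c v => by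
        funext _
        exact map_smul e c v }
  refine ⟨hs, i, ⟨{ toFun := fun t => ((fun _ φ => Ψ t φ) : C.Tan)
                    map_add' := fun u v => ?_
                    map_smul' := fun c u => ?_ }, fun v => ?_⟩, fun u v huv => ?_⟩
  · funext _ φ
    exact congrFun (map_add Ψ u v) φ
  · funext _ φ
    exact congrFun (map_smul Ψ c u) φ
  · funext _ φ
    exact hΨ v φ
  · exact e.injective (congrFun huv ())

theorem finrank_of_type {Y : AV} {P : CMPair} (h : IsOfType Y P) :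
    finrank ℚ P.E = finrank ℚ Y.H := by
  obtain ⟨e, -, -⟩ := h
  exact e.finrank_eq.symm

/-- Rescaling. -/
theorem unb_scale {Y : AV} {d r : ℚ} (h : Unbalanced Y d) (hr : 0 < d * r ^ 2) :
    Unbalanced Y (d * r ^ 2) := by
  obtain ⟨hd, f, Ψ, s, h1, h2, h3, h4⟩ := h
  have hr0 : r ≠ 0 := by
    rintro rfl
    norm_num at hr
  have hrC : (r : ℂ) ≠ 0 := Rat.cast_ne_zero.2 hr0
  refine ⟨hr, r • f, (r : ℂ) • Ψ, (r : ℂ) * s, fun v => ?_, fun w => ?_, ?_, ?_⟩
  · rw [LinearMap.smul_apply, LinearMap.smul_apply, h1]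
    have h5 := map_ratCast_smul Y.per ℚ ℂ r (f v)
    rw [Rat.cast_id] at h5
    exact h5.symm
  · rw [LinearMap.smul_apply, LinearMap.smul_apply, map_smul, h2, smul_neg, smul_neg, smul_smul,
      smul_smul]
    congr 2
    ring
  · push_cast
    linear_combination (r : ℂ) ^ 2 * h3
  · have e1 : ((r : ℂ) • Ψ - ((r : ℂ) * s) • LinearMap.id) =
        (r : ℂ) • (Ψ - s • LinearMap.id) := by
      rw [smul_sub, smul_smul]
    have e2 : ((r : ℂ) • Ψ + ((r : ℂ) * s) • LinearMap.id) =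
        (r : ℂ) • (Ψ + s • LinearMap.id) := by
      rw [smul_add, smul_smul]
    rw [e1, e2, LinearMap.ker_smul _ _ hrC, LinearMap.ker_smul _ _ hrC]
    exact h4

/-- The CM type of an elliptic curve with complex multiplication by `ℚ(√-d)`. -/
theorem exists_ell {d : ℚ} (hd : 0 < d) : ∃ (P : CMPair) (E : AV), finrank ℚ P.E = 2 ∧
    IsFactor E (av (single P)) ∧ finrank ℚ E.H = 2 ∧ Unbalanced E d := by
  have hE : IsSimple (EK d hd) := by
    refine ⟨⟨fun _ => 1, fun h0 => ?_⟩, simpleE hd⟩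
    exact one_ne_zero (congrFun h0 (Sum.inl 0))
  obtain ⟨P, hP⟩ := exists_type (EK d hd) hE (cmE hd)
  have h2 : finrank ℚ (EK d hd).H = 2 := by
    change finrank ℚ (Fin 1 ⊕ Fin 1 → ℚ) = 2
    rw [finrank_fintype_fun_eq_card, Fintype.card_sum, Fintype.card_fin]
  exact ⟨P, EK d hd, (finrank_of_type hP).trans h2, factor_of_type hE hP, h2, unbE hd⟩

/-- Isogenies. -/
theorem factor_isg {Y Y' X : AV} (hY : IsSimple Y) (h : Pool.Agent.N995.Isg Y Y')
    (h' : IsFactor Y' X) : IsFactor Y X := by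
  obtain ⟨e, h1, -⟩ := h
  obtain ⟨-, g, hg, hgi⟩ := h'
  exact ⟨hY, g.comp e.toLinearMap, IsHom.comp' hg h1, hgi.comp e.injective⟩

theorem t_POW : S_UNB → S_POW := by
  intro hU A hA
  obtain ⟨ι, _, _, a, Z', h', hpos, hsim, hrk, hfac, hall⟩ := exists_factors A
  -- the CM types
  have hT : ∀ i, ∃ P : CMPair, finrank ℚ P.E ≤ 2 * a i ∧
      ((HasCMult (AVZ (h' i)) ∧ IsFactor (AVZ (h' i)) (av (single P))) ∨
      (¬ HasCMult (AVZ (h' i)) ∧ ∀ d, Unbalanced (AVZ (h' i)) d → ∃ E, IsFactor E (av (single P)) ∧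
        finrank ℚ E.H = 2 ∧ Unbalanced E d)) := by
    intro i
    have hr : finrank ℚ (AVZ (h' i)).H = 2 * a i := by
      change finrank ℚ (Fin (a i) ⊕ Fin (a i) → ℚ) = 2 * a i
      rw [finrank_fintype_fun_eq_card, Fintype.card_sum, Fintype.card_fin]
      ring
    by_cases hcm : HasCMult (AVZ (h' i))
    · obtain ⟨P, hP⟩ := exists_type _ (hsim i) hcm
      exact ⟨P, ((finrank_of_type hP).trans hr).le, Or.inl ⟨hcm, factor_of_type (hsim i) hP⟩⟩
    · by_cases hd : ∃ d₀, Unbalanced (AVZ (h' i)) d₀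
      · obtain ⟨d₀, hd₀⟩ := hd
        obtain ⟨P, E, h1, h2, h3, h4⟩ := exists_ell hd₀.1
        refine ⟨P, ?_, Or.inr ⟨hcm, fun d hd => ?_⟩⟩
        · have := hpos i
          omega
        · have h6 : finrank ℚ (AVZ (h' i)).H ≤ 6 := by
            rw [hr]
            have : a i ≤ ∑ i, a i := Finset.single_le_sum (fun _ _ => Nat.zero_le _) (mem_univ i)
            omega
          obtain ⟨r, rfl⟩ := hU _ (hsim i) hcm (Or.inl h6) d₀ d hd₀ hd
          exact ⟨E, h2, h3, unb_scale h4 hd.1⟩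
      · obtain ⟨P, E, h1, -⟩ := exists_ell (d := 1) one_pos
        refine ⟨P, ?_, Or.inr ⟨hcm, fun d hd' => absurd ⟨d, hd'⟩ hd⟩⟩
        have := hpos i
        omega
  choose T hT1 hT2 using hT
  refine ⟨ι, inferInstance, T, ?_, fun X hX Y hY => ?_⟩
  · calc ∑ k, finrank ℚ (T k).E ≤ ∑ k, 2 * a k := Finset.sum_le_sum fun k _ => hT1 k
      _ = finrank ℚ A.H := by rw [hrk, Finset.mul_sum]
      _ ≤ 6 := hA
  · obtain ⟨i, hi⟩ := hall Y (hX Y hY)
    rcases hT2 i with ⟨-, h1⟩ | ⟨h1, h2⟩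
    · exact Or.inl ⟨i, factor_isg hY.1 hi h1⟩
    · have hf : finrank ℚ Y.H ≤ 6 := by
        obtain ⟨-, g, -, hg⟩ := hX Y hY
        have := A.finH
        exact (LinearMap.finrank_le_finrank_of_injective hg).trans hA
      refine Or.inr ⟨fun hc => h1 (hi.symm.hasCM hc), Or.inl hf, fun d hd => ?_⟩
      obtain ⟨E, h3, h4, h5⟩ := h2 d (hi.symm.unb hd)
      exact ⟨by omega, i, E, h3, h4, h5⟩

end

end Pool.Agent.N178.HX.POW
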