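import Mathlib
import Pool.Agent.N178.HX.StmD
import Pool.Agent.N634.GHC.Rat

/-!
# Rational Hodge substructures of small level are spanned by contractions of Hodge tensors, if the
# maps are given for the spaces all of whose conjugates have small level

(The proof is the one of `Pool.Agent.N634.GHC.t_RAT`.)
-/

set_option linter.unusedSectionVars false

namespace Pool.Agent.N178.HX.RATG

open Finset Matrix Pool.Agent.W437.HC Pool.Agent.W437.HD Pool.Agent.V1168.GH
  Pool.Agent.W548.Odd Pool.Agent.N178.HW Pool.Agent.N634.GHC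
open Pool.Agent.TH131.GHC (cx HL HL_cx HL_act eigF mem_eigF evalF_eig cst_mem_cx)

noncomputable section

variable {B : Type} [Fintype B] [DecidableEq B] {D Om S Si : Matrix B B ℂ}

section cj

variable {κ : Type} [Fintype κ] [DecidableEq κ]

theorem cjf_add (σ : ℂ ≃+* ℂ) (c d : (κ → B) → ℂ) : cjf σ (c + d) = cjf σ c + cjf σ d := by
  funext I
  exact map_add σ _ _

theorem cjf_smul (σ : ℂ ≃+* ℂ) (a : ℂ) (c : (κ → B) → ℂ) : cjf σ (a • c) = σ a • cjf σ c := by
  funext I
  exact map_mul σ _ _

open Polynomial in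
/-- Automorphisms and polynomials in the action. -/
theorem cjf_aeval (σ : ℂ ≃+* ℂ) (D : Matrix B B ℂ) (p : ℂ[X]) (c : (κ → B) → ℂ) :
    aeval (actE (κ := κ) (D.map (σ : ℂ →+* ℂ))) (p.map (σ : ℂ →+* ℂ)) (cjf σ c) =
      cjf σ (aeval (actE (κ := κ) D) p c) := by
  induction p using Polynomial.induction_on' with
  | add p q hp hq =>
    rw [Polynomial.map_add, map_add, map_add, LinearMap.add_apply, LinearMap.add_apply, hp, hq,
      cjf_add]
  | monomial n a =>
    have h1 : ∀ n : ℕ, ((actE (κ := κ) (D.map (σ : ℂ →+* ℂ))) ^ n) (cjf σ c) =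
        cjf σ (((actE (κ := κ) D) ^ n) c) := by
      intro n
      induction n with
      | zero => simp
      | succ n ih =>
        rw [pow_succ', Module.End.mul_apply, ih, pow_succ', Module.End.mul_apply, actE_apply,
          actE_apply, cjf_act]
    rw [Polynomial.map_monomial, aeval_monomial, aeval_monomial, Module.End.mul_apply,
      Module.End.mul_apply, h1, Module.algebraMap_end_apply, Module.algebraMap_end_apply, cjf_smul]
    rfl

end cj

/-- **Rational Hodge substructures of small level.** -/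
theorem t_RATG : S_RATG := by
  intro B _ _ _ D Om S Si H n i hmaps V hV
  have hSi := H.SiS
  have hDL : D ∈ LA {D} := LA_self (Set.mem_singleton D)
  -- the space orthogonal to `QQ`
  let M : Submodule ℂ ((Fin i → B) → ℂ) := cx V ⊔ QQ D n i
  have hMst : Stb (LA {D}) M := by
    intro X hX c hc
    obtain ⟨a, ha, b, hb, rfl⟩ := Submodule.mem_sup.1 hc
    rw [act_add_right]
    exact Submodule.add_mem_sup (stb_cx hV X hX a ha) (QQ_stb n i X hX b hb)
  let U : Submodule ℂ ((Fin i → B) → ℂ) :=
    { carrier := {u | u ∈ M ∧ ∀ v ∈ QQ D n i, hp Si v u = 0}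
      zero_mem' := by
        refine ⟨M.zero_mem, fun v _ => ?_⟩
        unfold hp
        rw [map_zero, ip_zero_right]
      add_mem' := by
        rintro a b ⟨ha1, ha2⟩ ⟨hb1, hb2⟩
        refine ⟨M.add_mem ha1 hb1, fun v hv => ?_⟩
        have h1 := ha2 v hv
        have h2 := hb2 v hv
        unfold hp at *
        rw [map_add, ip_add_right, h1, h2, add_zero]
      smul_mem' := by
        rintro r a ⟨ha1, ha2⟩
        refine ⟨M.smul_mem r ha1, fun v hv => ?_⟩
        have h1 := ha2 v hv
        unfold hp at *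
        rw [map_smul, ip_smul_right, h1, mul_zero] }
  have hUst : Stb (LA {D}) U := by
    rintro X hX c ⟨hc1, hc2⟩
    refine ⟨hMst X hX c hc1, fun v hv => ?_⟩
    -- the adjoint of an element of the Lie algebra
    have h1 : hp Si (act X c) v = 0 := by
      rw [hp_act hSi]
      have h2 := hc2 _ (QQ_stb n i _ (H.adj X hX) v hv)
      unfold hp at *
      rw [← ip_conj, h2, map_zero]
    unfold hp at *
    rw [← ip_conj, h1, map_zero]
  have hUlev : LvG D n U := by
    rintro σ u ⟨hu1, hu2⟩ x ε hε hx hlt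
    have hDσ : D.map (σ : ℂ →+* ℂ) ∈ LA {D} := LA_aut (σ : ℂ →+* ℂ) hDL
    -- the polynomial with the roots `-n, ..., n`
    obtain ⟨p, hp'⟩ : ∃ p : Polynomial ℂ, p = ∏ b ∈ Finset.Icc (-(n : ℤ)) n,
        (Polynomial.X - Polynomial.C ((b : ℤ) : ℂ)) := ⟨_, rfl⟩
    have hev : ∀ z : ℂ, p.eval z = ∏ b ∈ Finset.Icc (-(n : ℤ)) n, (z - ((b : ℤ) : ℂ)) := by
      intro z
      rw [hp', Polynomial.eval_prod]
      exact prod_congr rfl fun b _ => by
        rw [Polynomial.eval_sub, Polynomial.eval_X, Polynomial.eval_C]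
    have hne : p.eval (((∑ k, ε k : ℤ)) : ℂ) ≠ 0 := by
      rw [hev, prod_ne_zero_iff]
      intro b hb h0
      rw [sub_eq_zero] at h0
      have h1 : (∑ k, ε k : ℤ) = b := by exact_mod_cast h0
      rw [h1] at hlt
      rw [Finset.mem_Icc] at hb
      have h2 := abs_le.2 hb
      omega
    have hz : ∀ b : {a : ℤ // |a| ≤ (n : ℤ)}, p.eval ((b.1 : ℤ) : ℂ) = 0 := by
      intro b
      rw [hev]
      refine prod_eq_zero (i := b.1) ?_ (sub_self _)
      rw [Finset.mem_Icc]
      exact abs_le.1 b.2
    -- the operator kills `cx V`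
    have hkill0 : ∀ v ∈ cx V, Polynomial.aeval (actE D) p v = 0 := by
      intro v hv
      have h1 := HL_cx hV hv
      induction h1 using Submodule.iSup_induction' with
      | mem b y hy =>
        have h2 := aeval_func (actE D) LinearMap.id (eigF D (Fin i) b.1)
          (by
            intro w hw
            rw [actE_apply, mem_eigF.1 hw]
            exact Submodule.smul_mem _ _ hw) ((b.1 : ℤ) : ℂ)
          (by
            intro w hw
            rw [LinearMap.id_apply, LinearMap.id_apply, actE_apply]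
            exact mem_eigF.1 hw) p y hy.2
        rw [LinearMap.id_apply, LinearMap.id_apply, hz b, zero_smul] at h2
        exact h2
      | zero => exact map_zero _
      | add y z _ _ hy hz =>
        have hle : (⨆ b : {a : ℤ // |a| ≤ (n : ℤ)}, cx V ⊓ eigF D (Fin i) b.1) ≤ cx V :=
          iSup_le fun b => inf_le_left
        rw [map_add, hy (hle ‹_›), hz (hle ‹_›), add_zero]
    have hpσ : p.map (σ : ℂ →+* ℂ) = p := by
      rw [hp', Polynomial.map_prod]
      refine prod_congr rfl fun b _ => ?_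
      rw [Polynomial.map_sub, Polynomial.map_X, Polynomial.map_C, map_intCast]
    have hkill : ∀ v ∈ cx V, Polynomial.aeval (actE (D.map (σ : ℂ →+* ℂ))) p v = 0 := by
      intro v hv
      unfold cx at hv
      induction hv using Submodule.span_induction with
      | mem v hv =>
        obtain ⟨c, hc, rfl⟩ := hv
        have h1 := cjf_aeval σ D p (cst ℂ c)
        rw [hpσ, cjf_cst, hkill0 _ (cst_mem_cx hc), cjf_zero] at h1
        exact h1
      | zero => exact map_zero _
      | add a b _ _ ha hb => rw [map_add, ha, hb, add_zero]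
      | smul r a _ ha => rw [map_smul, ha, smul_zero]
    obtain ⟨v, hv, q, hq, rfl⟩ := Submodule.mem_sup.1 hu1
    have hw1 : Polynomial.aeval (actE (D.map (σ : ℂ →+* ℂ))) p (v + q) ∈ QQ D n i := by
      rw [map_add, hkill v hv, zero_add]
      exact aeval_mem _ _ (fun w hw => QQ_stb n i _ hDσ w hw) p q hq
    have hw2 : Polynomial.aeval (actE (D.map (σ : ℂ →+* ℂ))) p (v + q) ∈ U :=
      aeval_mem _ _ (fun w hw => hUst _ hDσ w hw) p _ ⟨hu1, hu2⟩
    have hw3 : Polynomial.aeval (actE (D.map (σ : ℂ →+* ℂ))) p (v + q) = 0 :=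
      hp_self hSi (hw2.2 _ hw1)
    let f : ((Fin i → B) → ℂ) →ₗ[ℂ] ℂ :=
      { toFun := fun c => evalF c x
        map_add' := fun c d => evalF_add c d x
        map_smul' := fun a c => evalF_smul a c x }
    have h3 := aeval_func (actE (D.map (σ : ℂ →+* ℂ))) f ⊤ (fun _ _ => Submodule.mem_top) (((∑ k, ε k : ℤ)) : ℂ)
      (by
        intro w _
        change evalF (act (D.map (σ : ℂ →+* ℂ)) w) x = _ • evalF w x
        rw [evalF_act]
        have h4 : ∀ k, evalF w (Function.update x k ((D.map (σ : ℂ →+* ℂ)) *ᵥ x k)) =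
            (ε k : ℂ) * evalF w x := by
          intro k
          have h5 : (D.map (σ : ℂ →+* ℂ)) *ᵥ x k = (ε k : ℂ) • x k := hx k
          rw [h5, evalF_update_smul, Function.update_eq_self]
        rw [sum_congr rfl (fun k _ => h4 k), ← sum_mul, smul_eq_mul]
        push_cast
        rfl) p (v + q) Submodule.mem_top
    rw [hw3, map_zero] at h3
    exact ((smul_eq_zero.1 h3.symm).resolve_left hne)
  -- `U` is zero
  have hU0 : U = ⊥ := by
    by_contra hne
    obtain ⟨κ', i1, i2, hcard, heven, φ, hφ, u, hu, hφu⟩ := hmaps U hne hUst hUlev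
    obtain ⟨m, hm⟩ := heven
    obtain ⟨Mu, hM1, hM2⟩ := exists_mul (κ' := κ') H.Om2 m (Fin n) (by
      rw [Fintype.card_fin]
      omega)
    have hφ' : ∀ X ∈ LA {D}, ∀ u, (Mu ∘ₗ φ) (act X u) = act X ((Mu ∘ₗ φ) u) := by
      intro X hX u
      rw [LinearMap.comp_apply, LinearMap.comp_apply, hφ X hX, hM2 X (H.sp X hX)]
    have hQ : hadj S Si (Mu ∘ₗ φ) ((Mu ∘ₗ φ) u) ∈ QQ D n i := by
      refine Submodule.subset_span ⟨hadj S Si (Mu ∘ₗ φ), ?_, _, rfl⟩
      intro X hX w
      exact hadj_equiv H hφ' hX w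
    have h1 := hu.2 _ hQ
    rw [hp_hadj hSi] at h1
    exact hφu (hM1 _ (hp_self hSi h1))
  -- the conclusion
  have hle : M ≤ QQ D n i := by
    have h1 : (M.map (pull fun _ => Si)) ≤ (QQ D n i).map (pull fun _ => Si) := by
      refine le_of_compl (Submodule.map_mono le_sup_right) ?_
      rintro _ ⟨u, hu, rfl⟩ hort
      have h2 : u ∈ U := ⟨hu, fun v hv => hort _ ⟨v, hv, rfl⟩⟩
      rw [hU0, Submodule.mem_bot] at h2
      rw [h2, map_zero]
    intro u hu
    obtain ⟨v, hv, hvu⟩ := h1 ⟨u, hu, rfl⟩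
    have h2 : u = v := by
      rw [← pull_back hSi u, ← pull_back hSi v]
      exact congrArg _ hvu.symm
    rw [h2]
    exact hv
  intro v hv
  exact mem_of_cst_mem_cx (QQ_le H n i (hle (Submodule.mem_sup_left (cst_mem_cx hv))))

end

end Pool.Agent.N178.HX.RATG
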