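import Mathlib
import Pool.Agent.N178.HX.SPG
import Pool.Agent.N178.HX.RATG
import Pool.Agent.N178.HX.POW
import Pool.Agent.N178.HX.CovH
import Pool.Agent.N306.GH.Mult
import Pool.Agent.N507.GHC3.Asm
import Pool.Agent.N507.GHC3.Zero
import Pool.Agent.N319.GHC.LocT
import Pool.Agent.N721.HX.LineA
import Pool.Agent.N459.HX.TKG
import Pool.Agent.N821.GHC.Dat
import Pool.Agent.N216.HX.Shift
import Pool.Agent.N717.HX.Expo
import Pool.Agent.N429.HX.Pair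
import Pool.Agent.N42.GHC.GEN
import Pool.Agent.N400.HX.SPI
import Pool.Agent.N400.HX.ALLT
import Pool.Agent.N49.HX.EXL
import Pool.Agent.N383.HX.L3
import Pool.Agent.N691.GHC.KCH
import Pool.Agent.N475.HX.LOW
import Pool.Agent.N492.HX.COV
import Pool.Agent.N494.HX.Tot
import Pool.Agent.N438.HX.UNB
import Pool.Agent.N776.HX.Prod

/-!
# The parts of the proof
-/

namespace Pool.Agent.N178.HX
open Pool.Agent.N178.HW

theorem t_MAPSG : S_MAPSG :=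
  mapsG Pool.Agent.N459.HX.t_TKG Pool.Agent.N821.GHC.t_DAT Pool.Agent.N216.HX.t_SHIFTG
    Pool.Agent.N717.HX.t_EXPO (Pool.Agent.N42.GHC.GEN.t_GEN Pool.Agent.N429.HX.t_PAIR)

theorem t_LOW : S_LOW := Pool.Agent.N475.HX.t_LOW Pool.Agent.N383.HX.t_L3 Pool.Agent.N691.GHC.t_KCH

theorem t_COV : S_COV :=
  Pool.Agent.N492.HX.t_COV Pool.Agent.N492.HX.t_SPF t_LOW Pool.Agent.N400.HX.t_SPI
    Pool.Agent.N178.HX.SPG.t_SPG Pool.Agent.N400.HX.t_SPB

theorem t_MAINT : S_MAINT :=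
  maint Pool.Agent.N306.GH.t_MULT Pool.Agent.N178.HX.RATG.t_RATG Pool.Agent.N507.GHC3.t_ASMG Pool.Agent.N319.GHC.t_LOCT
    Pool.Agent.N721.HX.t_LINEA t_MAPSG Pool.Agent.N400.HX.t_ALLT Pool.Agent.N507.GHC3.t_ZERO

theorem t_EXL : S_EXL := Pool.Agent.N49.HX.t_EXL
theorem t_UNB : S_UNB := Pool.Agent.N438.HX.t_UNB
theorem t_TOT : S_TOT := Pool.Agent.N494.HX.t_TOT
theorem t_PROD : S_PROD := Pool.Agent.N776.HX.t_PROD
theorem t_POW : S_POW := Pool.Agent.N178.HX.POW.t_POW t_UNB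
end Pool.Agent.N178.HX
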